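import Mathlib

/-!
# The algebraic numbers with the square-free predicate do not have NTP2

We work with the structure whose universe is the field of algebraic numbers (an algebraic closure
of the rationals), whose signature has addition, negation, the constant `1` and one unary
predicate, interpreted as the set of those `a` such that `v a < 2` for every valuation `v` of the
algebraic numbers which extends a `p`-adic valuation of the rationals.  We prove that the complete
theory of this structure does NOT have NTP2.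

Idea.  For algebraic numbers `a`, `b` the following are equivalent:
* there is a valuation `v` above `2` with `v a < 1` and `v b < 1`;
* there is an algebraic number `t` such that `t` is square-free, `2 t` is not, and `2 (t + a)`,
  `2 (t + b)` are square-free.
The nontrivial direction takes `t` to be a suitable root of `X (X + a)^m (X + b)^m = β`, where `β`
is a unit outside `2` whose values above `2` are prescribed; it is obtained from the finiteness of
class groups.  Since the space of places above `2` has infinitely many disjoint nonempty clopen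
subsets `Y i`, the negation `φ(x; z, y)` of the second statement for `a = x - z`, `b = y` has TP2:
row `i` says that `x` is close to `2^{-j}` everywhere on `Y i`.
-/

namespace Pool.Agent.Results.MP_74b845_lc.SqfNotNTP2

open Polynomial NumberField FirstOrder FirstOrder.Language

/-! ## Definitions used in the statement -/

/-- The field of algebraic numbers, an algebraic closure of the rationals. -/
abbrev QBar : Type := AlgebraicClosure ℚ

/-- `IsValAbove p v` says that the map `v : QBar → ℚ ∪ {∞}` is a valuation of the field of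
algebraic numbers which extends the `p`-adic valuation of the rationals. -/
structure IsValAbove (p : ℕ) (v : QBar → WithTop ℚ) : Prop where
  map_zero : v 0 = ⊤
  map_mul : ∀ x y, v (x * y) = v x + v y
  le_map_add : ∀ x y, min (v x) (v y) ≤ v (x + y)
  extends_padic : ∀ q : ℚ, q ≠ 0 →
    v ((q : ℚ) : QBar) = (((padicValRat p q : ℤ) : ℚ) : WithTop ℚ)

/-- The set of square-free algebraic numbers: those `a` with `v a < 2` for all primes `p` and all
valuations `v` of the algebraic numbers extending the `p`-adic valuation. -/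
def SqfQBar : Set QBar :=
  {a | ∀ (p : ℕ) (v : QBar → WithTop ℚ), p.Prime → IsValAbove p v → v a < 2}

/-- The function symbols of the signature: the constant `1`, negation and addition. -/
inductive AddFunc : ℕ → Type
  | one : AddFunc 0
  | neg : AddFunc 1
  | add : AddFunc 2

/-- The relation symbols of the signature: one unary predicate. -/
inductive SqfRel : ℕ → Type
  | sqf : SqfRel 1

/-- The signature with addition, negation, the constant `1` and a unary predicate. -/
def sqfLang : FirstOrder.Language.{0, 0} where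
  Functions := AddFunc
  Relations := SqfRel

/-- Interpretation of the function symbols in the field of algebraic numbers. -/
noncomputable def interpFunc : {n : ℕ} → AddFunc n → (Fin n → QBar) → QBar
  | _, .one, _ => 1
  | _, .neg, x => - x 0
  | _, .add, x => x 0 + x 1

/-- Interpretation of the unary predicate: the set of square-free algebraic numbers. -/
def interpRel : {n : ℕ} → SqfRel n → (Fin n → QBar) → Prop
  | _, .sqf, x => x 0 ∈ SqfQBar

/-- The structure `(QBar; +, -, 1, Sqf)`. -/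
noncomputable instance sqfStructure : sqfLang.Structure QBar where
  funMap f x := interpFunc f x
  RelMap r x := interpRel r x

/-- `IsTP2Array M φ b k`: for each row `i` the formulas `φ(x; b i j)`, `j < ω`, are
`k`-inconsistent (no `k` of them have a common solution), while for each `f : ω → ω` the set
`{φ(x; b i (f i)) : i < ω}` is consistent, that is, each finite subset has a common solution. -/
def IsTP2Array {L : FirstOrder.Language.{0, 0}} (M : Type) [L.Structure M] {m n : ℕ}
    (φ : L.Formula (Fin m ⊕ Fin n)) (b : ℕ → ℕ → Fin n → M) (k : ℕ) : Prop :=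
  (∀ i, ∀ s : Finset ℕ, s.card = k →
      ¬ ∃ a : Fin m → M, ∀ j ∈ s, φ.Realize (Sum.elim a (b i j))) ∧
    (∀ f : ℕ → ℕ, ∀ s : Finset ℕ, ∃ a : Fin m → M, ∀ i ∈ s, φ.Realize (Sum.elim a (b i (f i))))

/-- The formula `φ(x; y)` (with tuples `x` and `y` of lengths `m` and `n`) has TP2 in the theory
`T`: some model of `T` contains a TP2 array for it, for some `k`. -/
def HasTP2 {L : FirstOrder.Language.{0, 0}} (T : L.Theory) {m n : ℕ}
    (φ : L.Formula (Fin m ⊕ Fin n)) : Prop :=
  ∃ (M : Type) (_ : L.Structure M) (_ : Nonempty M), M ⊨ T ∧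
    ∃ (b : ℕ → ℕ → Fin n → M) (k : ℕ), IsTP2Array M φ b k

/-- The theory `T` has NTP2: no formula has TP2 in `T`. -/
def NTP2 {L : FirstOrder.Language.{0, 0}} (T : L.Theory) : Prop :=
  ∀ (m n : ℕ) (φ : L.Formula (Fin m ⊕ Fin n)), ¬ HasTP2 T φ

/-! ## Valuations -/

instance isAlgebraicQBar : Algebra.IsAlgebraic ℚ QBar := by
  constructor
  intro x
  obtain ⟨f, hf, hx⟩ := (AlgebraicClosure.isAlgebraic ℚ).isAlgebraic x
  refine ⟨f, hf, ?_⟩
  rw [aeval_def] at hx ⊢
  rw [← hx]
  congr 1

instance isAlgClosureQBar : IsAlgClosure ℚ QBar := ⟨inferInstance, inferInstance⟩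

namespace IsValAbove

variable {p : ℕ} {v : QBar → WithTop ℚ}

theorem map_one (h : IsValAbove p v) : v 1 = 0 := by
  have := h.extends_padic 1 one_ne_zero
  simpa using this

/-- The associated Mathlib additive valuation. -/
noncomputable def toAdd (h : IsValAbove p v) : AddValuation QBar (WithTop ℚ) :=
  AddValuation.of v h.map_zero h.map_one h.le_map_add h.map_mul

theorem toAdd_apply (h : IsValAbove p v) (x : QBar) : h.toAdd x = v x := rfl

theorem map_neg (h : IsValAbove p v) (x : QBar) : v (-x) = v x :=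
  h.toAdd.map_neg x

theorem map_ne_top (h : IsValAbove p v) {x : QBar} (hx : x ≠ 0) : v x ≠ ⊤ := by
  intro htop
  have h1 : v (x * x⁻¹) = v x + v x⁻¹ := h.map_mul x x⁻¹
  rw [mul_inv_cancel₀ hx, h.map_one, htop, top_add] at h1
  exact absurd h1 (by simp)

/-- rational value at nonzero elements -/
noncomputable def val (v : QBar → WithTop ℚ) (x : QBar) : ℚ := (v x).untopD 0

theorem coe_val (h : IsValAbove p v) {x : QBar} (hx : x ≠ 0) : ((val v x : ℚ) : WithTop ℚ) = v x := by
  unfold val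
  obtain ⟨q, hq⟩ := WithTop.ne_top_iff_exists.mp (h.map_ne_top hx)
  rw [← hq]; rfl

theorem val_mul (h : IsValAbove p v) {x y : QBar} (hx : x ≠ 0) (hy : y ≠ 0) :
    val v (x * y) = val v x + val v y := by
  have h1 : ((val v (x * y) : ℚ) : WithTop ℚ) = ((val v x + val v y : ℚ) : WithTop ℚ) := by
    rw [h.coe_val (mul_ne_zero hx hy), h.map_mul, WithTop.coe_add, h.coe_val hx, h.coe_val hy]
  exact_mod_cast h1

theorem val_one (h : IsValAbove p v) : val v 1 = 0 := by
  unfold val; rw [h.map_one]; rfl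

theorem val_neg (h : IsValAbove p v) (x : QBar) : val v (-x) = val v x := by
  unfold val; rw [h.map_neg]

theorem val_pow (h : IsValAbove p v) {x : QBar} (hx : x ≠ 0) (n : ℕ) :
    val v (x ^ n) = n * val v x := by
  induction n with
  | zero => simp [h.val_one]
  | succ n ih =>
    rw [pow_succ, h.val_mul (pow_ne_zero n hx) hx, ih]; push_cast; ring

theorem val_inv (h : IsValAbove p v) {x : QBar} (hx : x ≠ 0) :
    val v x⁻¹ = - val v x := by
  have h1 := h.val_mul hx (inv_ne_zero hx)
  rw [mul_inv_cancel₀ hx, h.val_one] at h1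
  linarith

theorem val_div (h : IsValAbove p v) {x y : QBar} (hx : x ≠ 0) (hy : y ≠ 0) :
    val v (x / y) = val v x - val v y := by
  rw [div_eq_mul_inv, h.val_mul hx (inv_ne_zero hy), h.val_inv hy]; ring

theorem val_add (h : IsValAbove p v) {x y : QBar} (hx : x ≠ 0) (hy : y ≠ 0) (hxy : x + y ≠ 0) :
    min (val v x) (val v y) ≤ val v (x + y) := by
  have h1 := h.le_map_add x y
  rw [← h.coe_val hx, ← h.coe_val hy, ← h.coe_val hxy] at h1
  exact_mod_cast h1

theorem val_sub (h : IsValAbove p v) {x y : QBar} (hx : x ≠ 0) (hy : y ≠ 0) (hxy : x - y ≠ 0) :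
    min (val v x) (val v y) ≤ val v (x - y) := by
  have := h.val_add hx (neg_ne_zero.mpr hy) (by rwa [← sub_eq_add_neg])
  rwa [h.val_neg, ← sub_eq_add_neg] at this

theorem lt_iff (h : IsValAbove p v) {x : QBar} (hx : x ≠ 0) (c : ℚ) :
    v x < (c : WithTop ℚ) ↔ val v x < c := by
  rw [← h.coe_val hx]; exact_mod_cast Iff.rfl

theorem le_iff (h : IsValAbove p v) {x : QBar} (hx : x ≠ 0) (c : ℚ) :
    (c : WithTop ℚ) ≤ v x ↔ c ≤ val v x := by
  rw [← h.coe_val hx]; exact_mod_cast Iff.rfl

theorem val_rat (h : IsValAbove p v) {q : ℚ} (hq : q ≠ 0) :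
    val v (q : QBar) = (padicValRat p q : ℤ) := by
  have h1 := h.extends_padic q hq
  have h2 : (q : QBar) ≠ 0 := by
    simpa using hq
  rw [← h.coe_val h2] at h1
  exact_mod_cast h1

theorem val_nat (h : IsValAbove p v) {n : ℕ} (hn : n ≠ 0) :
    val v (n : QBar) = (padicValNat p n : ℕ) := by
  have h1 := h.val_rat (q := (n : ℚ)) (by exact_mod_cast hn)
  simpa using h1

theorem val_int_nonneg (h : IsValAbove p v) {n : ℤ} (hn : n ≠ 0) :
    0 ≤ val v (n : QBar) := by
  have h1 := h.val_rat (q := (n : ℚ)) (by exact_mod_cast hn)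
  have h5 : ((n : ℚ) : QBar) = (n : QBar) := by simp
  rw [h5] at h1
  rw [h1, padicValRat.of_int]
  exact_mod_cast Nat.zero_le _

/-- Elements integral over `ℤ` have nonnegative value. -/
theorem nonneg_of_isIntegral (h : IsValAbove p v) {x : QBar} (hx : IsIntegral ℤ x) : 0 ≤ v x := by
  obtain ⟨f, hf, hfx⟩ := hx
  by_contra hneg
  push Not at hneg
  have hx0 : x ≠ 0 := by
    rintro rfl
    rw [h.map_zero] at hneg
    exact absurd hneg (by simp)
  have hlt : val v x < 0 := by
    have := (h.lt_iff hx0 0).mp (by exact_mod_cast hneg)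
    exact this
  -- x^n = - ∑_{i<n} c_i x^i
  set n := f.natDegree with hn
  have hsum : x ^ n = - ∑ i ∈ Finset.range n, ((f.coeff i : ℤ) : QBar) * x ^ i := by
    have h1 : f.eval₂ (algebraMap ℤ QBar) x = 0 := hfx
    rw [eval₂_eq_sum_range, Finset.sum_range_succ, ← hn] at h1
    have h2 : f.coeff n = 1 := hf
    rw [h2] at h1
    simp only [_root_.map_one, one_mul, algebraMap_int_eq, eq_intCast] at h1
    linear_combination h1
  have hv : v (x ^ n) = ((n * val v x : ℚ) : WithTop ℚ) := by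
    rw [← h.coe_val (pow_ne_zero n hx0), h.val_pow hx0]
  have hgt : v (x ^ n) < v (∑ i ∈ Finset.range n, ((f.coeff i : ℤ) : QBar) * x ^ i) := by
    refine h.toAdd.map_lt_sum (s := Finset.range n)
      (f := fun i => ((f.coeff i : ℤ) : QBar) * x ^ i) (g := v (x ^ n))
      (h.map_ne_top (pow_ne_zero n hx0)) ?_
    intro i hi
    rw [Finset.mem_range] at hi
    rw [toAdd_apply]
    by_cases hc : f.coeff i = 0
    · rw [hc]; simp only [Int.cast_zero, zero_mul, h.map_zero]
      exact lt_top_iff_ne_top.mpr (h.map_ne_top (pow_ne_zero n hx0))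
    · have hc' : ((f.coeff i : ℤ) : QBar) ≠ 0 := by exact_mod_cast hc
      have hxi : x ^ i ≠ 0 := pow_ne_zero i hx0
      rw [hv, ← h.coe_val (mul_ne_zero hc' hxi), h.val_mul hc' hxi, h.val_pow hx0]
      have h3 := h.val_int_nonneg hc
      have h6 : (n : ℚ) * val v x < i * val v x := by
        have : (i : ℚ) < n := by exact_mod_cast hi
        nlinarith
      exact_mod_cast (by linarith : (n : ℚ) * val v x < val v ((f.coeff i : ℤ) : QBar) + i * val v x)
  rw [hsum, h.map_neg] at hgt
  exact absurd hgt (lt_irrefl _)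

theorem val_nonneg_of_isIntegral (h : IsValAbove p v) {x : QBar} (hx0 : x ≠ 0)
    (hx : IsIntegral ℤ x) : 0 ≤ val v x := by
  have := h.nonneg_of_isIntegral hx
  exact (h.le_iff hx0 0).mp (by exact_mod_cast this)

end IsValAbove

/-- for each nonzero algebraic number, the set of values at places above `p` is finite -/
theorem finite_vals (p : ℕ) (a : QBar) (ha : a ≠ 0) :
    ∃ F : Finset ℚ, ∀ v, IsValAbove p v → IsValAbove.val v a ∈ F := by
  classical
  have halg : IsAlgebraic ℚ a := Algebra.IsAlgebraic.isAlgebraic a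
  obtain ⟨f, hf0, hfa⟩ := halg
  refine ⟨((f.support ×ˢ f.support).image fun ij =>
    (((padicValRat p (f.coeff ij.1) : ℤ) : ℚ) - ((padicValRat p (f.coeff ij.2) : ℤ) : ℚ)) /
      ((ij.2 : ℚ) - (ij.1 : ℚ))), ?_⟩
  intro v h
  have hne : f.support.Nonempty := Polynomial.support_nonempty.mpr hf0
  -- value of the i-th term
  set m : ℕ → ℚ := fun i => ((padicValRat p (f.coeff i) : ℤ) : ℚ) + i * IsValAbove.val v a with hm
  have hterm : ∀ i ∈ f.support, ((f.coeff i : ℚ) : QBar) * a ^ i ≠ 0 ∧
      v (((f.coeff i : ℚ) : QBar) * a ^ i) = ((m i : ℚ) : WithTop ℚ) := by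
    intro i hi
    have hc : f.coeff i ≠ 0 := Polynomial.mem_support_iff.mp hi
    have hc' : ((f.coeff i : ℚ) : QBar) ≠ 0 := by simpa using hc
    have hai : a ^ i ≠ 0 := pow_ne_zero i ha
    refine ⟨mul_ne_zero hc' hai, ?_⟩
    rw [← h.coe_val (mul_ne_zero hc' hai), h.val_mul hc' hai, h.val_pow ha, h.val_rat hc]
  obtain ⟨i, hi, hmin⟩ := Finset.exists_min_image f.support m hne
  -- another index attaining the minimum
  have hex : ∃ j ∈ f.support, j ≠ i ∧ m j = m i := by
    by_contra hcon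
    push Not at hcon
    have hsum : ∑ j ∈ f.support, ((f.coeff j : ℚ) : QBar) * a ^ j = 0 := by
      rw [aeval_def, eval₂_eq_sum, sum_def] at hfa
      simpa using hfa
    rw [← Finset.add_sum_erase _ _ hi] at hsum
    have h1 : ((f.coeff i : ℚ) : QBar) * a ^ i
        = - ∑ j ∈ f.support.erase i, ((f.coeff j : ℚ) : QBar) * a ^ j := by
      linear_combination hsum
    have h2 : v (((f.coeff i : ℚ) : QBar) * a ^ i) <
        v (∑ j ∈ f.support.erase i, ((f.coeff j : ℚ) : QBar) * a ^ j) := by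
      refine h.toAdd.map_lt_sum (h.map_ne_top (hterm i hi).1) ?_
      intro j hj
      have hj' := Finset.mem_of_mem_erase hj
      have hne' := Finset.ne_of_mem_erase hj
      rw [IsValAbove.toAdd_apply, (hterm i hi).2, (hterm j hj').2]
      have := lt_of_le_of_ne (hmin j hj') (Ne.symm (hcon j hj' hne'))
      exact_mod_cast this
    rw [h1, h.map_neg] at h2
    exact absurd h2 (lt_irrefl _)
  obtain ⟨j, hj, hji, hmj⟩ := hex
  rw [Finset.mem_image]
  refine ⟨(i, j), Finset.mk_mem_product hi hj, ?_⟩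
  have hd : (j : ℚ) - (i : ℚ) ≠ 0 := by
    rw [sub_ne_zero]; exact_mod_cast hji
  simp only [hm] at hmj
  rw [div_eq_iff hd]
  linarith

theorem gap_of_finset (F : Finset ℚ) : ∃ q : ℕ, 0 < q ∧ ∀ x ∈ F, x < 1 → x ≤ 1 - 1 / (q : ℚ) := by
  classical
  induction F using Finset.induction_on with
  | empty => exact ⟨1, one_pos, by simp⟩
  | insert a s _ ih =>
    obtain ⟨q, hq, h⟩ := ih
    by_cases ha : a < 1
    · obtain ⟨r, hr⟩ := exists_nat_gt (1 / (1 - a))
      have h1a : 0 < 1 - a := by linarith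
      have hr0 : (0 : ℚ) < r := lt_trans (by positivity) hr
      refine ⟨q + r, by omega, ?_⟩
      intro x hx hx1
      have hq0 : (0 : ℚ) < q := by exact_mod_cast hq
      have hle1 : 1 / ((q + r : ℕ) : ℚ) ≤ 1 / (q : ℚ) := by
        apply one_div_le_one_div_of_le hq0; push_cast; linarith
      have hle2 : 1 / ((q + r : ℕ) : ℚ) ≤ 1 / (r : ℚ) := by
        apply one_div_le_one_div_of_le hr0; push_cast; linarith
      rcases Finset.mem_insert.mp hx with rfl | hx
      · have : 1 / (r : ℚ) < 1 - x := by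
          rw [div_lt_iff₀ h1a] at hr
          rw [div_lt_iff₀ hr0]; linarith
        linarith
      · have := h x hx hx1
        linarith
    · refine ⟨q, hq, ?_⟩
      intro x hx hx1
      rcases Finset.mem_insert.mp hx with rfl | hx
      · exact absurd hx1 ha
      · exact h x hx hx1

/-- uniform gap below `1` for the values of `a` above `p` -/
theorem exists_gap (p : ℕ) (a b : QBar) (ha : a ≠ 0) (hb : b ≠ 0) :
    ∃ q : ℕ, 0 < q ∧ ∀ v, IsValAbove p v →
      (IsValAbove.val v a < 1 → IsValAbove.val v a ≤ 1 - 1 / (q : ℚ)) ∧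
      (IsValAbove.val v b < 1 → IsValAbove.val v b ≤ 1 - 1 / (q : ℚ)) := by
  classical
  obtain ⟨F, hF⟩ := finite_vals p a ha
  obtain ⟨G, hG⟩ := finite_vals p b hb
  obtain ⟨q, hq, h⟩ := gap_of_finset (F ∪ G)
  exact ⟨q, hq, fun v hv => ⟨fun h1 => h _ (Finset.mem_union_left _ (hF v hv)) h1,
    fun h1 => h _ (Finset.mem_union_right _ (hG v hv)) h1⟩⟩

/-! ## Common divisors -/

theorem gcd_integral (x y : QBar) (hx : x ≠ 0) (hy : y ≠ 0) (hxi : IsIntegral ℤ x)
    (hyi : IsIntegral ℤ y) :
    ∃ g : QBar, g ≠ 0 ∧ ∀ p v, IsValAbove p v →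
      IsValAbove.val v g = min (IsValAbove.val v x) (IsValAbove.val v y) := by
  classical
  let K : IntermediateField ℚ QBar := IntermediateField.adjoin ℚ {x, y}
  have : FiniteDimensional ℚ K := by
    apply IntermediateField.finiteDimensional_adjoin
    intro z _
    exact (Algebra.IsAlgebraic.isAlgebraic z).isIntegral
  have : NumberField K := ⟨⟩
  have hxK : x ∈ K := IntermediateField.subset_adjoin ℚ _ (by simp)
  have hyK : y ∈ K := IntermediateField.subset_adjoin ℚ _ (by simp)
  let φ : 𝓞 K →+* QBar := (algebraMap K QBar).comp (algebraMap (𝓞 K) K)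
  have hφinj : Function.Injective φ := by
    apply Function.Injective.comp (algebraMap K QBar).injective
    exact RingOfIntegers.coe_injective
  have hφint : ∀ z : 𝓞 K, IsIntegral ℤ (φ z) := by
    intro z
    have := RingOfIntegers.isIntegral z
    exact this.map (φ.toIntAlgHom)
  have hxi' : IsIntegral ℤ (⟨x, hxK⟩ : K) := by
    have hinj : Function.Injective (algebraMap K QBar) := (algebraMap K QBar).injective
    rwa [← isIntegral_algebraMap_iff hinj]
  have hyi' : IsIntegral ℤ (⟨y, hyK⟩ : K) := by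
    have hinj : Function.Injective (algebraMap K QBar) := (algebraMap K QBar).injective
    rwa [← isIntegral_algebraMap_iff hinj]
  let x' : 𝓞 K := ⟨⟨x, hxK⟩, hxi'⟩
  let y' : 𝓞 K := ⟨⟨y, hyK⟩, hyi'⟩
  have hφx : φ x' = x := rfl
  have hφy : φ y' = y := rfl
  have hx'0 : x' ≠ 0 := by
    intro h0; apply hx; rw [← hφx, h0, map_zero]
  let I : Ideal (𝓞 K) := Ideal.span {x', y'}
  have hI0 : I ≠ ⊥ := by
    intro h0
    apply hx'0
    have : x' ∈ I := Ideal.subset_span (by simp)
    rw [h0] at this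
    simpa using this
  have hImem : I ∈ nonZeroDivisors (Ideal (𝓞 K)) := mem_nonZeroDivisors_of_ne_zero hI0
  set h := Fintype.card (ClassGroup (𝓞 K)) with hh
  have hpos : 0 < h := Fintype.card_pos
  have hIh : I ^ h ∈ nonZeroDivisors (Ideal (𝓞 K)) := pow_mem hImem h
  have hprin : Submodule.IsPrincipal (I ^ h) := by
    rw [← ClassGroup.mk0_eq_one_iff hIh]
    have h1 : (ClassGroup.mk0 ⟨I, hImem⟩) ^ h = 1 := pow_card_eq_one
    rw [← h1, ← map_pow]
    rfl
  obtain ⟨g', hg'⟩ := hprin.principal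
  have hg'0 : g' ≠ 0 := by
    rintro rfl
    have h1 : I ^ h = ⊥ := by rw [hg']; simp
    have h2 : I ^ h ≠ 0 := nonZeroDivisors.ne_zero hIh
    exact h2 h1
  -- h-th root of φ g'
  obtain ⟨g, hg⟩ := IsAlgClosed.exists_pow_nat_eq (φ g') hpos
  have hφg0 : φ g' ≠ 0 := by
    intro h0; apply hg'0; apply hφinj; rw [h0, map_zero]
  have hg0 : g ≠ 0 := by
    rintro rfl; rw [zero_pow hpos.ne'] at hg; exact hφg0 hg.symm
  refine ⟨g, hg0, ?_⟩
  intro p v hv
  have hkey : (h : ℚ) * IsValAbove.val v g = IsValAbove.val v (φ g') := by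
    rw [← hg, hv.val_pow hg0]
  have hhpos : (0 : ℚ) < h := by exact_mod_cast hpos
  set m := min (IsValAbove.val v x) (IsValAbove.val v y) with hm
  -- the ideal of elements with value ≥ c
  let J : ℚ → Ideal (𝓞 K) := fun c =>
    { carrier := {z | (c : WithTop ℚ) ≤ v (φ z)}
      add_mem' := by
        intro a b ha hb
        simp only [Set.mem_ofPred_eq, map_add] at *
        exact le_trans (le_min ha hb) (hv.le_map_add _ _)
      zero_mem' := by simp [hv.map_zero]
      smul_mem' := by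
        intro a b hb
        simp only [Set.mem_ofPred_eq, smul_eq_mul, map_mul] at *
        rw [hv.map_mul]
        have h1 := hv.nonneg_of_isIntegral (hφint a)
        calc (c : WithTop ℚ) = 0 + c := by rw [zero_add]
          _ ≤ v (φ a) + v (φ b) := add_le_add h1 hb }
  have hJ : ∀ (c : ℚ) (z : 𝓞 K), z ∈ J c ↔ (c : WithTop ℚ) ≤ v (φ z) := fun c z => Iff.rfl
  have hIJ : I ≤ J m := by
    rw [Ideal.span_le]
    intro z hz
    rcases hz with rfl | hz
    · show (m : WithTop ℚ) ≤ v (φ x')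
      rw [hφx, hv.le_iff hx]
      exact min_le_left _ _
    · rw [Set.mem_singleton_iff] at hz
      subst hz
      show (m : WithTop ℚ) ≤ v (φ y')
      rw [hφy, hv.le_iff hy]
      exact min_le_right _ _
  have hIJn : ∀ n : ℕ, I ^ n ≤ J (n * m) := by
    intro n
    induction n with
    | zero =>
      intro z _
      rw [hJ]
      simpa using hv.nonneg_of_isIntegral (hφint z)
    | succ n ih =>
      rw [pow_succ, Ideal.mul_le]
      intro r hr s hs
      rw [hJ, map_mul, hv.map_mul]
      have h1 := ih hr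
      have h2 := hIJ hs
      rw [hJ] at h1 h2
      calc (((n + 1 : ℕ) * m : ℚ) : WithTop ℚ) = ((n * m : ℚ) : WithTop ℚ) + (m : WithTop ℚ) := by
            rw [← WithTop.coe_add]; congr 1; push_cast; ring
        _ ≤ _ := add_le_add h1 h2
  have hg'mem : g' ∈ I ^ h := by rw [hg']; exact Submodule.mem_span_singleton_self g'
  have hge : (h : ℚ) * m ≤ IsValAbove.val v (φ g') := by
    have := hIJn h hg'mem
    rw [hJ, hv.le_iff hφg0] at this
    exact this
  have hdiv : ∀ z : 𝓞 K, z ≠ 0 → z ∈ I → IsValAbove.val v (φ g') ≤ h * IsValAbove.val v (φ z) := by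
    intro z hz0 hz
    have h1 : z ^ h ∈ I ^ h := Ideal.pow_mem_pow hz h
    rw [hg', Submodule.mem_span_singleton] at h1
    obtain ⟨u, hu⟩ := h1
    have hφz0 : φ z ≠ 0 := by
      intro h0; apply hz0; apply hφinj; rw [h0, map_zero]
    have hu0 : φ u ≠ 0 := by
      intro h0
      have : u = 0 := by apply hφinj; rw [h0, map_zero]
      rw [this, zero_smul] at hu
      exact (pow_ne_zero h hz0) hu.symm
    have h2 : φ z ^ h = φ u * φ g' := by
      rw [← map_pow, ← hu, smul_eq_mul, map_mul]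
    have h3 := congrArg (IsValAbove.val v) h2
    rw [hv.val_pow hφz0, hv.val_mul hu0 hφg0] at h3
    have h4 := hv.val_nonneg_of_isIntegral hu0 (hφint u)
    linarith
  have hlex := hdiv x' hx'0 (Ideal.subset_span (by simp))
  have hley := hdiv y' (by intro h0; apply hy; rw [← hφy, h0, map_zero])
    (Ideal.subset_span (by simp))
  rw [hφx] at hlex
  rw [hφy] at hley
  have hle : IsValAbove.val v (φ g') ≤ h * m := by
    rw [hm, mul_min_of_nonneg _ _ hhpos.le]
    exact le_min hlex hley
  have heq : (h : ℚ) * IsValAbove.val v g = h * m := by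
    rw [hkey]; exact le_antisymm hle hge
  exact mul_left_cancel₀ hhpos.ne' heq

/-- every algebraic number has a positive integer multiple which is integral -/
theorem exists_mul_integral (x : QBar) : ∃ n : ℕ, n ≠ 0 ∧ IsIntegral ℤ ((n : QBar) * x) := by
  have h : IsAlgebraic ℤ x := by
    have h1 : IsAlgebraic ℚ x := Algebra.IsAlgebraic.isAlgebraic x
    exact (IsFractionRing.isAlgebraic_iff ℤ ℚ QBar).mpr h1
  obtain ⟨y, hy0, hy⟩ := h.exists_integral_multiple
  refine ⟨y.natAbs, by simpa using hy0, ?_⟩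
  have h2 : ((y.natAbs : ℕ) : QBar) * x = y • x ∨ ((y.natAbs : ℕ) : QBar) * x = - (y • x) := by
    rcases Int.natAbs_eq y with h | h
    · left
      rw [zsmul_eq_mul]
      congr 1
      have : ((y.natAbs : ℤ) : QBar) = (y : QBar) := by rw [← h]
      simpa using this
    · right
      rw [zsmul_eq_mul, ← neg_mul]
      congr 1
      have : ((-(y.natAbs : ℤ) : ℤ) : QBar) = (y : QBar) := by rw [← h]
      push_cast at this
      rw [← this]; simp
  rcases h2 with h2 | h2
  · rw [h2]; exact hy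
  · rw [h2]; exact hy.neg

theorem gcd_exists (x y : QBar) (hx : x ≠ 0) (hy : y ≠ 0) :
    ∃ g : QBar, g ≠ 0 ∧ ∀ p v, IsValAbove p v →
      IsValAbove.val v g = min (IsValAbove.val v x) (IsValAbove.val v y) := by
  obtain ⟨n, hn, hnx⟩ := exists_mul_integral x
  obtain ⟨k, hk, hky⟩ := exists_mul_integral y
  have hn' : (n : QBar) ≠ 0 := by exact_mod_cast hn
  have hk' : (k : QBar) ≠ 0 := by exact_mod_cast hk
  have h1 : IsIntegral ℤ (((n * k : ℕ) : QBar) * x) := by
    have h3 : IsIntegral ℤ (k : QBar) := by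
      simpa using isIntegral_algebraMap (R := ℤ) (A := QBar) (x := (k : ℤ))
    have h4 := h3.mul hnx
    have h5 : ((n * k : ℕ) : QBar) * x = k * (n * x) := by push_cast; ring
    rw [h5]; exact h4
  have h2 : IsIntegral ℤ (((n * k : ℕ) : QBar) * y) := by
    have h3 : IsIntegral ℤ (n : QBar) := by
      simpa using isIntegral_algebraMap (R := ℤ) (A := QBar) (x := (n : ℤ))
    have h4 := h3.mul hky
    have h5 : ((n * k : ℕ) : QBar) * y = n * (k * y) := by push_cast; ring
    rw [h5]; exact h4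
  have hN : ((n * k : ℕ) : QBar) ≠ 0 := by push_cast; exact mul_ne_zero hn' hk'
  obtain ⟨g, hg0, hg⟩ := gcd_integral _ _ (mul_ne_zero hN hx) (mul_ne_zero hN hy) h1 h2
  refine ⟨g / ((n * k : ℕ) : QBar), div_ne_zero hg0 hN, ?_⟩
  intro p v hv
  rw [hv.val_div hg0 hN, hg p v hv, hv.val_mul hN hx, hv.val_mul hN hy]
  rw [min_add_add_left]
  ring

/-! ## The key existence statement -/

theorem arith_aux (L m ε A B T Ta Tb : ℚ) (hL : 0 ≤ L) (hm : 0 < m) (hmε : m * ε = L + 2)
    (hA : -L ≤ A) (hB : -L ≤ B) (gapA : A < 1 → A ≤ 1 - ε) (gapB : B < 1 → B ≤ 1 - ε)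
    (hε : 0 < ε)
    (h1 : min T A ≤ Ta) (h2 : min Ta A ≤ T)
    (h3 : min T B ≤ Tb) (h4 : min Tb B ≤ T)
    (hsum : T + m * Ta + m * Tb
      = m * (min 1 (A + ε) + min 1 (B + ε)) + 1 / 2 - (2 * L + 3)) :
    T < 2 ∧ Ta < 1 := by
  rcases lt_or_ge A 1 with hA1 | hA1
  · have gA := gapA hA1
    rw [min_eq_right (by linarith : A + ε ≤ 1)] at hsum
    rcases lt_or_ge B 1 with hB1 | hB1
    · have gB := gapB hB1
      rw [min_eq_right (by linarith : B + ε ≤ 1)] at hsum
      have hsum' : T + m * Ta + m * Tb = m * A + m * B + 3 / 2 := by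
        rw [hsum]; linear_combination (2 : ℚ) * hmε
      constructor
      · by_contra hT
        push Not at hT
        have e1 : A ≤ Ta := le_trans (le_min (by linarith) le_rfl) h1
        have e2 : B ≤ Tb := le_trans (le_min (by linarith) le_rfl) h3
        have e3 := mul_le_mul_of_nonneg_left e1 hm.le
        have e4 := mul_le_mul_of_nonneg_left e2 hm.le
        linarith
      · by_contra hT
        push Not at hT
        have e1 : A ≤ T := le_trans (le_min (by linarith) le_rfl) h2
        have e3 := mul_le_mul_of_nonneg_left hT hm.le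
        rcases le_total B A with hBA | hBA
        · have e2 : B ≤ Tb := le_trans (le_min (by linarith) le_rfl) h3
          have e4 := mul_le_mul_of_nonneg_left e2 hm.le
          have e5 := mul_le_mul_of_nonneg_left gA hm.le
          nlinarith
        · have e2 : A ≤ Tb := le_trans (le_min (by linarith) hBA) h3
          have e4 := mul_le_mul_of_nonneg_left e2 hm.le
          have e5 := mul_le_mul_of_nonneg_left gB hm.le
          nlinarith
    · rw [min_eq_left (by linarith : 1 ≤ B + ε)] at hsum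
      have hsum' : T + m * Ta + m * Tb = m * A + m - L - 1 / 2 := by
        rw [hsum]; linear_combination hmε
      have hT1 : T < 1 := by
        by_contra hT
        push Not at hT
        have e1 : A ≤ Ta := le_trans (le_min (by linarith) le_rfl) h1
        have e2 : 1 ≤ Tb := le_trans (le_min (by linarith) hB1) h3
        have e3 := mul_le_mul_of_nonneg_left e1 hm.le
        have e4 := mul_le_mul_of_nonneg_left e2 hm.le
        linarith
      refine ⟨by linarith, ?_⟩
      by_contra hT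
      push Not at hT
      have e1 : A ≤ T := le_trans (le_min (by linarith) le_rfl) h2
      have e2 : A ≤ Tb := le_trans (le_min e1 (by linarith)) h3
      have e3 := mul_le_mul_of_nonneg_left hT hm.le
      have e4 := mul_le_mul_of_nonneg_left e2 hm.le
      linarith
  · rw [min_eq_left (by linarith : 1 ≤ A + ε)] at hsum
    have hT1 : T < 1 := by
      by_contra hT
      push Not at hT
      have e1 : 1 ≤ Ta := le_trans (le_min hT hA1) h1
      have e3 := mul_le_mul_of_nonneg_left e1 hm.le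
      rcases lt_or_ge B 1 with hB1 | hB1
      · have gB := gapB hB1
        rw [min_eq_right (by linarith : B + ε ≤ 1)] at hsum
        have hsum' : T + m * Ta + m * Tb = m * B + m - L - 1 / 2 := by
          rw [hsum]; linear_combination hmε
        have e2 : B ≤ Tb := le_trans (le_min (by linarith) le_rfl) h3
        have e4 := mul_le_mul_of_nonneg_left e2 hm.le
        linarith
      · rw [min_eq_left (by linarith : 1 ≤ B + ε)] at hsum
        have e2 : 1 ≤ Tb := le_trans (le_min hT hB1) h3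
        have e4 := mul_le_mul_of_nonneg_left e2 hm.le
        linarith
    refine ⟨by linarith, ?_⟩
    by_contra hT
    push Not at hT
    have e1 : 1 ≤ T := le_trans (le_min hT hA1) h2
    linarith

theorem val_two_two {v : QBar → WithTop ℚ} (h : IsValAbove 2 v) : IsValAbove.val v 2 = 1 := by
  have := h.val_nat (n := 2) (by norm_num)
  simpa using this

theorem val_odd_of_two {v : QBar → WithTop ℚ} (h : IsValAbove 2 v) {k : ℕ} (hk : Odd k) :
    IsValAbove.val v (k : QBar) = 0 := by
  have hk0 : k ≠ 0 := by rintro rfl; simp at hk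
  have := h.val_nat hk0
  rw [this]
  have h2 : ¬ (2 ∣ k) := by rwa [← even_iff_two_dvd, Nat.not_even_iff_odd]
  rw [padicValNat.eq_zero_of_not_dvd h2]; simp

theorem val_two_of_ne {p : ℕ} {v : QBar → WithTop ℚ} (hp : p.Prime) (hp2 : p ≠ 2)
    (h : IsValAbove p v) : IsValAbove.val v 2 = 0 := by
  have := h.val_nat (n := 2) (by norm_num)
  have h2 : ¬ (p ∣ 2) := by
    intro hd
    exact hp2 ((Nat.prime_dvd_prime_iff_eq hp Nat.prime_two).mp hd)
  rw [padicValNat.eq_zero_of_not_dvd h2] at this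
  simpa using this

/-- product over the roots -/
theorem prod_eq_of_forall {p : ℕ} {v : QBar → WithTop ℚ} (h : IsValAbove p v) (S : Multiset QBar)
    (s : QBar) (hS : ∀ r ∈ S, v (s - r) = v (0 - r)) :
    v ((S.map (fun r => s - r)).prod) = v ((S.map (fun r => 0 - r)).prod) := by
  induction S using Multiset.induction_on with
  | empty => simp
  | cons a S ih =>
    simp only [Multiset.map_cons, Multiset.prod_cons]
    rw [h.map_mul, h.map_mul, hS a (Multiset.mem_cons_self a S),
      ih (fun r hr => hS r (Multiset.mem_cons_of_mem hr))]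

/-- The key existence statement. -/
theorem core (a b : QBar) (ha0 : a ≠ 0) (hb0 : b ≠ 0) (L : ℕ)
    (hodd : ∀ p v, p.Prime → p ≠ 2 → IsValAbove p v →
      0 ≤ IsValAbove.val v a ∧ 0 ≤ IsValAbove.val v b)
    (hL : ∀ v, IsValAbove 2 v → -(L : ℚ) ≤ IsValAbove.val v a ∧ -(L : ℚ) ≤ IsValAbove.val v b)
    (v₀ : QBar → WithTop ℚ) (h₀ : IsValAbove 2 v₀) (ha : IsValAbove.val v₀ a < 1)
    (hb : IsValAbove.val v₀ b < 1) :
    ∃ t : QBar, t ≠ 0 ∧ t + a ≠ 0 ∧ t + b ≠ 0 ∧ 1 ≤ IsValAbove.val v₀ t ∧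
      (∀ v, IsValAbove 2 v → IsValAbove.val v t < 2 ∧ IsValAbove.val v (t + a) < 1 ∧
        IsValAbove.val v (t + b) < 1) ∧
      (∀ p v, p.Prime → p ≠ 2 → IsValAbove p v → IsValAbove.val v t = 0 ∧
        IsValAbove.val v (t + a) = 0 ∧ IsValAbove.val v (t + b) = 0) := by
  classical
  obtain ⟨q, hq, hgap⟩ := exists_gap 2 a b ha0 hb0
  have h20 : (2 : QBar) ≠ 0 := by norm_num
  obtain ⟨π, hπ⟩ := IsAlgClosed.exists_pow_nat_eq (2 : QBar) hq
  obtain ⟨ρ, hρ⟩ := IsAlgClosed.exists_pow_nat_eq (2 : QBar) (n := 2) (by norm_num)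
  have hπ0 : π ≠ 0 := by rintro rfl; rw [zero_pow hq.ne'] at hπ; exact h20 hπ.symm
  have hρ0 : ρ ≠ 0 := by rintro rfl; rw [zero_pow (by norm_num)] at hρ; exact h20 hρ.symm
  obtain ⟨γa, hγa0, hγa⟩ := gcd_exists 2 (π * a) h20 (mul_ne_zero hπ0 ha0)
  obtain ⟨γb, hγb0, hγb⟩ := gcd_exists 2 (π * b) h20 (mul_ne_zero hπ0 hb0)
  have hqQ : (0 : ℚ) < q := by exact_mod_cast hq
  set m : ℕ := q * (L + 2) with hm
  have hm0 : 0 < m := by positivity
  have hmQ : (0 : ℚ) < m := by exact_mod_cast hm0
  set c : ℕ := 2 * L + 3 with hc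
  set β : QBar := γa ^ m * γb ^ m * ρ / 2 ^ c with hβ
  have hβ0 : β ≠ 0 := by
    rw [hβ]
    exact div_ne_zero (mul_ne_zero (mul_ne_zero (pow_ne_zero _ hγa0) (pow_ne_zero _ hγb0)) hρ0)
      (pow_ne_zero _ h20)
  have hvβ : ∀ p v, IsValAbove p v → IsValAbove.val v β =
      m * IsValAbove.val v γa + m * IsValAbove.val v γb + IsValAbove.val v ρ
        - c * IsValAbove.val v 2 := by
    intro p v hv
    rw [hβ, hv.val_div (mul_ne_zero (mul_ne_zero (pow_ne_zero _ hγa0) (pow_ne_zero _ hγb0)) hρ0)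
      (pow_ne_zero _ h20), hv.val_mul (mul_ne_zero (pow_ne_zero _ hγa0) (pow_ne_zero _ hγb0)) hρ0,
      hv.val_mul (pow_ne_zero _ hγa0) (pow_ne_zero _ hγb0), hv.val_pow hγa0, hv.val_pow hγb0,
      hv.val_pow h20]
  have hvρ : ∀ p v, IsValAbove p v → 2 * IsValAbove.val v ρ = IsValAbove.val v 2 := by
    intro p v hv
    rw [← hρ, hv.val_pow hρ0]; norm_num
  have hvπ : ∀ p v, IsValAbove p v → q * IsValAbove.val v π = IsValAbove.val v 2 := by
    intro p v hv
    rw [← hπ, hv.val_pow hπ0]
  -- the values of β above 2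
  have hvβ2 : ∀ v, IsValAbove 2 v → IsValAbove.val v β =
      m * (min 1 (IsValAbove.val v a + 1 / q) + min 1 (IsValAbove.val v b + 1 / q)) + 1 / 2
        - (2 * L + 3) := by
    intro v hv
    have e2 := val_two_two hv
    have eρ := hvρ 2 v hv
    have eπ := hvπ 2 v hv
    rw [e2] at eρ eπ
    have eπ' : IsValAbove.val v π = 1 / q := by
      rw [eq_div_iff hqQ.ne']; linarith
    rw [hvβ 2 v hv, hγa 2 v hv, hγb 2 v hv, hv.val_mul hπ0 ha0, hv.val_mul hπ0 hb0, e2, eπ',
      hc]
    rw [add_comm (1 / (q : ℚ)) (IsValAbove.val v a), add_comm (1 / (q : ℚ)) (IsValAbove.val v b)]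
    push_cast
    linarith
  have hvβodd : ∀ p v, p.Prime → p ≠ 2 → IsValAbove p v → IsValAbove.val v β = 0 := by
    intro p v hp hp2 hv
    have e2 := val_two_of_ne hp hp2 hv
    have eρ := hvρ p v hv
    have eπ := hvπ p v hv
    rw [e2] at eρ eπ
    have eπ' : IsValAbove.val v π = 0 := by
      rcases mul_eq_zero.mp eπ with h | h
      · exact absurd h hqQ.ne'
      · exact h
    obtain ⟨hA, hB⟩ := hodd p v hp hp2 hv
    rw [hvβ p v hv, hγa p v hv, hγb p v hv, hv.val_mul hπ0 ha0, hv.val_mul hπ0 hb0, e2, eπ']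
    rw [zero_add, zero_add, min_eq_left hA, min_eq_left hB]
    linarith
  -- the polynomial
  set P : QBar[X] := X * (X + C a) ^ m * (X + C b) ^ m - C β with hP
  have hPeval : ∀ s, P.eval s = s * (s + a) ^ m * (s + b) ^ m - β := by
    intro s; simp [hP]
  have hdeg : (X * (X + C a) ^ m * (X + C b) ^ m : QBar[X]).Monic := by
    exact ((monic_X).mul ((monic_X_add_C a).pow m)).mul ((monic_X_add_C b).pow m)
  have hdegpos : (C β).degree < (X * (X + C a) ^ m * (X + C b) ^ m : QBar[X]).degree := by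
    have h1 : (X * (X + C a) ^ m * (X + C b) ^ m : QBar[X]).natDegree = 1 + m + m := by
      rw [(((monic_X).mul ((monic_X_add_C a).pow m))).natDegree_mul ((monic_X_add_C b).pow m),
        (monic_X).natDegree_mul ((monic_X_add_C a).pow m), natDegree_X,
        (monic_X_add_C a).natDegree_pow, (monic_X_add_C b).natDegree_pow, natDegree_X_add_C,
        natDegree_X_add_C, mul_one]
    rw [degree_eq_natDegree hdeg.ne_zero, h1]
    refine lt_of_le_of_lt degree_C_le ?_
    exact_mod_cast (by omega : 0 < 1 + m + m)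
  have hmonic : P.Monic := hdeg.sub_of_left hdegpos
  have hsplit : P.Splits := IsAlgClosed.splits P
  have hprod : ∀ s, P.eval s = (P.roots.map (fun r => s - r)).prod := by
    intro s
    conv_lhs => rw [hsplit.eq_prod_roots_of_monic hmonic]
    rw [eval_multiset_prod, Multiset.map_map]
    congr 1
    apply Multiset.map_congr rfl
    intro r _
    simp
  -- there is a root with value ≥ 1 at v₀
  have hroot : ∃ t ∈ P.roots, 1 ≤ IsValAbove.val v₀ t := by
    by_contra hcon
    push Not at hcon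
    have hr0 : ∀ r ∈ P.roots, r ≠ 0 := by
      rintro r hr rfl
      have := (mem_roots hmonic.ne_zero).mp hr
      rw [IsRoot, hPeval] at this
      simp at this
      exact hβ0 this
    have hv2 : v₀ 2 = ((1 : ℚ) : WithTop ℚ) := by
      rw [← h₀.coe_val h20, val_two_two h₀]
    have hS : ∀ r ∈ P.roots, v₀ (2 - r) = v₀ (0 - r) := by
      intro r hr
      have h1 : v₀ (-r) < v₀ 2 := by
        rw [h₀.map_neg, hv2, h₀.lt_iff (hr0 r hr)]
        exact hcon r hr
      have h2 := h₀.toAdd.map_add_eq_of_lt_left (x := -r) (y := 2) h1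
      rw [h₀.toAdd_apply, h₀.toAdd_apply] at h2
      rw [show (2 : QBar) - r = -r + 2 by ring, h2, zero_sub]
    have hE := prod_eq_of_forall h₀ P.roots 2 hS
    rw [← hprod 2, ← hprod 0, hPeval, hPeval] at hE
    -- left-hand side
    have h2a : v₀ (2 + a) = v₀ a := by
      have h1 : v₀ a < v₀ 2 := by rw [hv2, h₀.lt_iff ha0]; exact ha
      have := h₀.toAdd.map_add_eq_of_lt_left (x := a) (y := 2) h1
      rw [h₀.toAdd_apply, h₀.toAdd_apply] at this
      rw [add_comm, this]
    have h2b : v₀ (2 + b) = v₀ b := by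
      have h1 : v₀ b < v₀ 2 := by rw [hv2, h₀.lt_iff hb0]; exact hb
      have := h₀.toAdd.map_add_eq_of_lt_left (x := b) (y := 2) h1
      rw [h₀.toAdd_apply, h₀.toAdd_apply] at this
      rw [add_comm, this]
    have h2a0 : (2 : QBar) + a ≠ 0 := by
      intro h; rw [h, h₀.map_zero] at h2a; exact (h₀.map_ne_top ha0) h2a.symm
    have h2b0 : (2 : QBar) + b ≠ 0 := by
      intro h; rw [h, h₀.map_zero] at h2b; exact (h₀.map_ne_top hb0) h2b.symm
    have hva : IsValAbove.val v₀ (2 + a) = IsValAbove.val v₀ a := by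
      unfold IsValAbove.val; rw [h2a]
    have hvb : IsValAbove.val v₀ (2 + b) = IsValAbove.val v₀ b := by
      unfold IsValAbove.val; rw [h2b]
    have hf0 : (2 : QBar) * (2 + a) ^ m * (2 + b) ^ m ≠ 0 :=
      mul_ne_zero (mul_ne_zero h20 (pow_ne_zero _ h2a0)) (pow_ne_zero _ h2b0)
    have hvf : IsValAbove.val v₀ ((2 : QBar) * (2 + a) ^ m * (2 + b) ^ m) =
        1 + m * IsValAbove.val v₀ a + m * IsValAbove.val v₀ b := by
      rw [h₀.val_mul (mul_ne_zero h20 (pow_ne_zero _ h2a0)) (pow_ne_zero _ h2b0),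
        h₀.val_mul h20 (pow_ne_zero _ h2a0), h₀.val_pow h2a0, h₀.val_pow h2b0, hva, hvb,
        val_two_two h₀]
    have hvβ₀ : IsValAbove.val v₀ β = m * IsValAbove.val v₀ a + m * IsValAbove.val v₀ b + 3 / 2 := by
      have g1 := (hgap v₀ h₀).1 ha
      have g2 := (hgap v₀ h₀).2 hb
      rw [hvβ2 v₀ h₀, min_eq_right (by linarith), min_eq_right (by linarith)]
      have : (m : ℚ) * (1 / q) = L + 2 := by
        rw [hm]; push_cast; field_simp
      linear_combination (2 : ℚ) * this
    have hlt : v₀ ((2 : QBar) * (2 + a) ^ m * (2 + b) ^ m) < v₀ β := by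
      rw [← h₀.coe_val hf0, ← h₀.coe_val hβ0, hvf, hvβ₀]
      exact_mod_cast (by linarith)
    have h3 := h₀.toAdd.map_add_eq_of_lt_left (x := (2 : QBar) * (2 + a) ^ m * (2 + b) ^ m)
      (y := -β) (by rw [h₀.toAdd_apply, h₀.toAdd_apply, h₀.map_neg]; exact hlt)
    rw [h₀.toAdd_apply, h₀.toAdd_apply, ← sub_eq_add_neg] at h3
    rw [h3] at hE
    rw [zero_mul, zero_mul, zero_sub, h₀.map_neg] at hE
    exact absurd hE hlt.ne
  obtain ⟨t, htroot, ht1⟩ := hroot
  have hteq : t * (t + a) ^ m * (t + b) ^ m = β := by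
    have := (mem_roots hmonic.ne_zero).mp htroot
    rw [IsRoot, hPeval] at this
    exact sub_eq_zero.mp this
  have hne : t * (t + a) ^ m * (t + b) ^ m ≠ 0 := by rw [hteq]; exact hβ0
  have ht0 : t ≠ 0 := by rintro rfl; simp at hne
  have hta0 : t + a ≠ 0 := by
    intro h; rw [h, zero_pow hm0.ne'] at hne; simp at hne
  have htb0 : t + b ≠ 0 := by
    intro h; rw [h, zero_pow hm0.ne'] at hne; simp at hne
  have hsum : ∀ p v, IsValAbove p v → IsValAbove.val v t + m * IsValAbove.val v (t + a) +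
      m * IsValAbove.val v (t + b) = IsValAbove.val v β := by
    intro p v hv
    rw [← hteq, hv.val_mul (mul_ne_zero ht0 (pow_ne_zero _ hta0)) (pow_ne_zero _ htb0),
      hv.val_mul ht0 (pow_ne_zero _ hta0), hv.val_pow hta0, hv.val_pow htb0]
  have hmin : ∀ p v, IsValAbove p v → ∀ x : QBar, x ≠ 0 → t + x ≠ 0 →
      min (IsValAbove.val v t) (IsValAbove.val v x) ≤ IsValAbove.val v (t + x) ∧
      min (IsValAbove.val v (t + x)) (IsValAbove.val v x) ≤ IsValAbove.val v t := by
    intro p v hv x hx htx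
    refine ⟨hv.val_add ht0 hx htx, ?_⟩
    have := hv.val_sub htx hx (by simpa using ht0)
    simpa using this
  refine ⟨t, ht0, hta0, htb0, ht1, ?_, ?_⟩
  · intro v hv
    have e := hsum 2 v hv
    rw [hvβ2 v hv] at e
    obtain ⟨i1, i2⟩ := hmin 2 v hv a ha0 hta0
    obtain ⟨i3, i4⟩ := hmin 2 v hv b hb0 htb0
    have hmε : (m : ℚ) * (1 / q) = L + 2 := by
      rw [hm]; push_cast; field_simp
    have hL' := hL v hv
    have hg := hgap v hv
    have r1 := arith_aux (L : ℚ) m (1 / q) _ _ _ _ _ (by positivity) hmQ hmε hL'.1 hL'.2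
      hg.1 hg.2 (by positivity) i1 i2 i3 i4 e
    have r2 := arith_aux (L : ℚ) m (1 / q) _ _ _ _ _ (by positivity) hmQ hmε hL'.2 hL'.1
      hg.2 hg.1 (by positivity) i3 i4 i1 i2 (by linarith)
    exact ⟨r1.1, r1.2, r2.2⟩
  · intro p v hp hp2 hv
    have e := hsum p v hv
    rw [hvβodd p v hp hp2 hv] at e
    obtain ⟨hA, hB⟩ := hodd p v hp hp2 hv
    obtain ⟨i1, i2⟩ := hmin p v hv a ha0 hta0
    obtain ⟨i3, i4⟩ := hmin p v hv b hb0 htb0
    have hT : 0 ≤ IsValAbove.val v t := by
      by_contra hneg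
      push Not at hneg
      have j1 : IsValAbove.val v (t + a) < 0 := by
        by_contra h
        push Not at h
        have := le_trans (le_min h hA) i2
        linarith
      have j2 : IsValAbove.val v (t + b) < 0 := by
        by_contra h
        push Not at h
        have := le_trans (le_min h hB) i4
        linarith
      have j3 := mul_neg_of_pos_of_neg hmQ j1
      have j4 := mul_neg_of_pos_of_neg hmQ j2
      linarith
    have hTa : 0 ≤ IsValAbove.val v (t + a) := le_trans (le_min hT hA) i1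
    have hTb : 0 ≤ IsValAbove.val v (t + b) := le_trans (le_min hT hB) i3
    have j3 := mul_nonneg hmQ.le hTa
    have j4 := mul_nonneg hmQ.le hTb
    refine ⟨by linarith, ?_, ?_⟩
    · have : (m : ℚ) * IsValAbove.val v (t + a) = 0 := by linarith
      rcases mul_eq_zero.mp this with h | h
      · exact absurd h hmQ.ne'
      · exact h
    · have : (m : ℚ) * IsValAbove.val v (t + b) = 0 := by linarith
      rcases mul_eq_zero.mp this with h | h
      · exact absurd h hmQ.ne'
      · exact h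

theorem lt_two_iff {p : ℕ} {v : QBar → WithTop ℚ} (hv : IsValAbove p v) {x : QBar} (hx : x ≠ 0) :
    v x < 2 ↔ IsValAbove.val v x < 2 := hv.lt_iff hx 2

theorem lt_one_iff {p : ℕ} {v : QBar → WithTop ℚ} (hv : IsValAbove p v) {x : QBar} (hx : x ≠ 0) :
    v x < 1 ↔ IsValAbove.val v x < 1 := hv.lt_iff hx 1

theorem one_le_iff {p : ℕ} {v : QBar → WithTop ℚ} (hv : IsValAbove p v) {x : QBar} (hx : x ≠ 0) :
    1 ≤ v x ↔ 1 ≤ IsValAbove.val v x := hv.le_iff hx 1

/-- Hard direction. -/
theorem exists_witness (a b : QBar) (v₀ : QBar → WithTop ℚ) (h₀ : IsValAbove 2 v₀)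
    (ha : v₀ a < 1) (hb : v₀ b < 1) :
    ∃ t : QBar, t ∈ SqfQBar ∧ t + t ∉ SqfQBar ∧ (t + a) + (t + a) ∈ SqfQBar ∧
      (t + b) + (t + b) ∈ SqfQBar := by
  have ha0 : a ≠ 0 := by rintro rfl; rw [h₀.map_zero] at ha; exact absurd ha (by simp)
  have hb0 : b ≠ 0 := by rintro rfl; rw [h₀.map_zero] at hb; exact absurd hb (by simp)
  rw [lt_one_iff h₀ ha0] at ha
  rw [lt_one_iff h₀ hb0] at hb
  -- common denominator
  obtain ⟨n₁, hn₁, hi₁⟩ := exists_mul_integral a
  obtain ⟨n₂, hn₂, hi₂⟩ := exists_mul_integral b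
  have hn0 : n₁ * n₂ ≠ 0 := mul_ne_zero hn₁ hn₂
  obtain ⟨L, k, hk, hnk⟩ := Nat.exists_eq_two_pow_mul_odd hn0
  have hk0 : k ≠ 0 := by rintro rfl; simp at hk
  have hkQ : (k : QBar) ≠ 0 := by exact_mod_cast hk0
  have h20 : (2 : QBar) ≠ 0 := by norm_num
  have h2L : (2 : QBar) ^ L ≠ 0 := pow_ne_zero _ h20
  have hintnat : ∀ n : ℕ, IsIntegral ℤ (n : QBar) := by
    intro n
    simpa using isIntegral_algebraMap (R := ℤ) (A := QBar) (x := (n : ℤ))
  have hcast : ((n₁ : QBar) * n₂) = 2 ^ L * k := by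
    have : ((n₁ * n₂ : ℕ) : QBar) = ((2 ^ L * k : ℕ) : QBar) := by rw [hnk]
    push_cast at this; exact this
  have hia : IsIntegral ℤ (2 ^ L * (k * a)) := by
    have h := (hintnat n₂).mul hi₁
    have e : (2 : QBar) ^ L * (k * a) = n₂ * (n₁ * a) := by
      linear_combination (-a) * hcast
    rw [e]; exact h
  have hib : IsIntegral ℤ (2 ^ L * (k * b)) := by
    have h := (hintnat n₁).mul hi₂
    have e : (2 : QBar) ^ L * (k * b) = n₁ * (n₂ * b) := by
      linear_combination (-b) * hcast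
    rw [e]; exact h
  have hka0 : (k : QBar) * a ≠ 0 := mul_ne_zero hkQ ha0
  have hkb0 : (k : QBar) * b ≠ 0 := mul_ne_zero hkQ hb0
  have hge : ∀ x : QBar, x ≠ 0 → IsIntegral ℤ (2 ^ L * x) → ∀ p v, IsValAbove p v →
      0 ≤ L * IsValAbove.val v 2 + IsValAbove.val v x := by
    intro x hx hxi p v hv
    have := hv.val_nonneg_of_isIntegral (mul_ne_zero h2L hx) hxi
    rwa [hv.val_mul h2L hx, hv.val_pow h20] at this
  have hodd : ∀ p v, p.Prime → p ≠ 2 → IsValAbove p v →
      0 ≤ IsValAbove.val v (k * a) ∧ 0 ≤ IsValAbove.val v (k * b) := by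
    intro p v hp hp2 hv
    have e1 := hge _ hka0 hia p v hv
    have e2 := hge _ hkb0 hib p v hv
    rw [val_two_of_ne hp hp2 hv] at e1 e2
    constructor <;> linarith
  have hL : ∀ v, IsValAbove 2 v → -(L : ℚ) ≤ IsValAbove.val v (k * a) ∧
      -(L : ℚ) ≤ IsValAbove.val v (k * b) := by
    intro v hv
    have e1 := hge _ hka0 hia 2 v hv
    have e2 := hge _ hkb0 hib 2 v hv
    rw [val_two_two hv] at e1 e2
    constructor <;> linarith
  have ha' : IsValAbove.val v₀ (k * a) < 1 := by
    rw [h₀.val_mul hkQ ha0, val_odd_of_two h₀ hk]; linarith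
  have hb' : IsValAbove.val v₀ (k * b) < 1 := by
    rw [h₀.val_mul hkQ hb0, val_odd_of_two h₀ hk]; linarith
  obtain ⟨t, ht0, hta0, htb0, ht1, htwo, hoth⟩ :=
    core (k * a) (k * b) hka0 hkb0 L hodd hL v₀ h₀ ha' hb'
  have hnk : ∀ p v, IsValAbove p v → 0 ≤ IsValAbove.val v (k : QBar) := by
    intro p v hv
    exact hv.val_nonneg_of_isIntegral hkQ (hintnat k)
  refine ⟨t / k, ?_, ?_, ?_, ?_⟩
  · intro p v hp hv
    rw [lt_two_iff hv (div_ne_zero ht0 hkQ), hv.val_div ht0 hkQ]
    have := hnk p v hv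
    by_cases hp2 : p = 2
    · subst hp2
      have := (htwo v hv).1
      linarith
    · have := (hoth p v hp hp2 hv).1
      linarith
  · intro hmem
    have h1 := hmem 2 v₀ Nat.prime_two h₀
    rw [← two_mul, lt_two_iff h₀ (mul_ne_zero h20 (div_ne_zero ht0 hkQ)),
      h₀.val_mul h20 (div_ne_zero ht0 hkQ), h₀.val_div ht0 hkQ, val_two_two h₀,
      val_odd_of_two h₀ hk] at h1
    linarith
  · intro p v hp hv
    have e : t / k + a + (t / k + a) = 2 * ((t + k * a) / k) := by
      field_simp; ring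
    rw [e, lt_two_iff hv (mul_ne_zero h20 (div_ne_zero hta0 hkQ)),
      hv.val_mul h20 (div_ne_zero hta0 hkQ), hv.val_div hta0 hkQ]
    have := hnk p v hv
    by_cases hp2 : p = 2
    · subst hp2
      have := (htwo v hv).2.1
      have := val_two_two hv
      linarith
    · have := (hoth p v hp hp2 hv).2.1
      have := val_two_of_ne hp hp2 hv
      linarith
  · intro p v hp hv
    have e : t / k + b + (t / k + b) = 2 * ((t + k * b) / k) := by
      field_simp; ring
    rw [e, lt_two_iff hv (mul_ne_zero h20 (div_ne_zero htb0 hkQ)),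
      hv.val_mul h20 (div_ne_zero htb0 hkQ), hv.val_div htb0 hkQ]
    have := hnk p v hv
    by_cases hp2 : p = 2
    · subst hp2
      have := (htwo v hv).2.2
      have := val_two_two hv
      linarith
    · have := (hoth p v hp hp2 hv).2.2
      have := val_two_of_ne hp hp2 hv
      linarith

/-- Easy direction. -/
theorem exists_place_of_witness (a b t : QBar) (ht : t ∈ SqfQBar) (ht2 : t + t ∉ SqfQBar)
    (hta : (t + a) + (t + a) ∈ SqfQBar) (htb : (t + b) + (t + b) ∈ SqfQBar) :
    ∃ v, IsValAbove 2 v ∧ v a < 1 ∧ v b < 1 := by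
  have h20 : (2 : QBar) ≠ 0 := by norm_num
  unfold SqfQBar at ht2
  simp only [Set.mem_ofPred_eq, not_forall, not_lt] at ht2
  obtain ⟨p, v, hp, hv, h2⟩ := ht2
  have htv := ht p v hp hv
  have hp2 : p = 2 := by
    by_contra hne
    by_cases ht0 : t = 0
    · rw [ht0, hv.map_zero] at htv; exact absurd htv (by simp)
    · rw [← two_mul] at h2
      have h3 := (hv.le_iff (mul_ne_zero h20 ht0) 2).mp h2
      rw [hv.val_mul h20 ht0, val_two_of_ne hp hne hv] at h3
      rw [lt_two_iff hv ht0] at htv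
      linarith
  subst hp2
  have ht0 : t ≠ 0 := by
    rintro rfl; rw [hv.map_zero] at htv; exact absurd htv (by simp)
  rw [← two_mul] at h2
  have h3 := (hv.le_iff (mul_ne_zero h20 ht0) 2).mp h2
  rw [hv.val_mul h20 ht0, val_two_two hv] at h3
  have ht1 : 1 ≤ v t := by rw [one_le_iff hv ht0]; linarith
  have key : ∀ x : QBar, (t + x) + (t + x) ∈ SqfQBar → v x < 1 := by
    intro x hx
    have h4 := hx 2 v Nat.prime_two hv
    have hne : t + x ≠ 0 := by
      intro h0
      rw [h0, add_zero, hv.map_zero] at h4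
      exact absurd h4 (by simp)
    rw [← two_mul, lt_two_iff hv (mul_ne_zero h20 hne), hv.val_mul h20 hne, val_two_two hv] at h4
    by_contra hcon
    push Not at hcon
    have h5 := le_trans (le_min ht1 hcon) (hv.le_map_add t x)
    rw [one_le_iff hv hne] at h5
    linarith
  exact ⟨v, hv, key a hta, key b htb⟩

/-! ## Existence of valuations -/

/-- values of the norm on the algebraic closure of `ℚ_[p]` are rational powers of `p` -/
theorem norm_rational (p : ℕ) [hp : Fact p.Prime] (x : PadicAlgCl p) (hx : x ≠ 0) :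
    ∃ q : ℚ, -Real.logb p ‖x‖ = (q : ℝ) := by
  have hn : ‖x‖ ≠ 0 := norm_ne_zero_iff.mpr hx
  have h1 : ‖x‖ = spectralValue (minpoly ℚ_[p] x) := rfl
  have h2 : spectralValue (minpoly ℚ_[p] x) ∈ Set.range (spectralValueTerms (minpoly ℚ_[p] x)) := by
    unfold spectralValue
    exact (Set.range_nonempty _).csSup_mem (spectralValueTerms_finite_range _)
  obtain ⟨n, hn2⟩ := h2
  rw [← h1] at hn2
  have hlt : n < (minpoly ℚ_[p] x).natDegree := by
    by_contra hge
    rw [spectralValueTerms_of_natDegree_le _ (not_lt.mp hge)] at hn2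
    exact hn hn2.symm
  rw [spectralValueTerms_of_lt_natDegree _ hlt] at hn2
  set c := (minpoly ℚ_[p] x).coeff n with hc
  set d := (minpoly ℚ_[p] x).natDegree with hd
  have hdn : (0 : ℝ) < (d : ℝ) - n := by
    have : (n : ℝ) < d := by exact_mod_cast hlt
    linarith
  have hc0 : c ≠ 0 := by
    intro h0
    rw [h0, norm_zero, Real.zero_rpow (by positivity)] at hn2
    exact hn hn2.symm
  have hp1 : (1 : ℝ) < p := by exact_mod_cast hp.out.one_lt
  refine ⟨(c.valuation : ℚ) / ((d : ℚ) - n), ?_⟩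
  rw [← hn2, Padic.norm_eq_zpow_neg_valuation hc0, Real.logb_rpow_eq_mul_logb_of_pos (by positivity),
    ← Real.rpow_intCast, Real.logb_rpow (by linarith) (ne_of_gt hp1)]
  push_cast
  field_simp

/-- there is a valuation of `QBar` above `p` -/
theorem exists_valAbove (p : ℕ) (hp' : p.Prime) : ∃ v, IsValAbove p v := by
  classical
  have hp : Fact p.Prime := ⟨hp'⟩
  let ι : QBar →+* PadicAlgCl p := (IsAlgClosed.lift (R := ℚ) (S := QBar) (M := PadicAlgCl p)).toRingHom
  have hι : Function.Injective ι := ι.injective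
  have hp1 : (1 : ℝ) < p := by exact_mod_cast hp.out.one_lt
  have hex : ∀ x : QBar, ∃ q : ℚ, x ≠ 0 → -Real.logb p ‖ι x‖ = (q : ℝ) := by
    intro x
    by_cases hx : x = 0
    · exact ⟨0, fun h => absurd hx h⟩
    · obtain ⟨q, hq⟩ := norm_rational p (ι x) (by
        intro h0; apply hx; apply hι; rw [h0, _root_.map_zero])
      exact ⟨q, fun _ => hq⟩
  choose w hw using hex
  have hnorm : ∀ x : QBar, x ≠ 0 → 0 < ‖ι x‖ := by
    intro x hx
    rw [norm_pos_iff]
    intro h0; apply hx; apply hι; rw [h0, _root_.map_zero]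
  refine ⟨fun x => if x = 0 then ⊤ else ((w x : ℚ) : WithTop ℚ), ?_, ?_, ?_, ?_⟩
  · simp
  · intro x y
    by_cases hx : x = 0
    · simp [hx]
    by_cases hy : y = 0
    · simp [hy]
    simp only [hx, hy, mul_eq_zero, or_self, if_false]
    rw [← WithTop.coe_add]
    congr 1
    have h1 : ((w (x * y) : ℚ) : ℝ) = ((w x + w y : ℚ) : ℝ) := by
      push_cast
      rw [← hw x hx, ← hw y hy, ← hw (x * y) (mul_ne_zero hx hy), map_mul, norm_mul,
        Real.logb_mul (hnorm x hx).ne' (hnorm y hy).ne']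
      ring
    exact_mod_cast h1
  · intro x y
    by_cases hx : x = 0
    · simp [hx]
    by_cases hy : y = 0
    · simp [hy]
    by_cases hxy : x + y = 0
    · simp [hxy]
    simp only [hx, hy, hxy, if_false]
    rw [← WithTop.coe_min]
    rw [WithTop.coe_le_coe]
    have h1 : ‖ι (x + y)‖ ≤ max ‖ι x‖ ‖ι y‖ := by
      rw [map_add]; exact PadicAlgCl.isNonarchimedean p _ _
    have h2 : ∀ a b : QBar, a ≠ 0 → b ≠ 0 → ‖ι a‖ ≤ ‖ι b‖ → w b ≤ w a := by
      intro a b ha hb hab
      have : (w b : ℝ) ≤ (w a : ℝ) := by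
        rw [← hw a ha, ← hw b hb]
        have := Real.logb_le_logb_of_le hp1 (hnorm a ha) hab
        linarith
      exact_mod_cast this
    rcases le_max_iff.mp h1 with h | h
    · exact le_trans (min_le_left _ _) (h2 _ _ hxy hx h)
    · exact le_trans (min_le_right _ _) (h2 _ _ hxy hy h)
  · intro q hq
    have hqQ : ((q : ℚ) : QBar) ≠ 0 := by exact_mod_cast hq
    simp only [hqQ, if_false]
    congr 1
    have h1 : ((w (q : QBar) : ℚ) : ℝ) = ((padicValRat p q : ℤ) : ℝ) := by
      rw [← hw _ hqQ]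
      have h2 : ι (q : QBar) = ((q : ℚ_[p]) : PadicAlgCl p) := by
        rw [map_ratCast]
        simp
      rw [h2, PadicAlgCl.norm_extends, Padic.eq_padicNorm, padicNorm.eq_zpow_of_nonzero hq]
      push_cast
      rw [← Real.rpow_intCast, Real.logb_rpow (by linarith) (ne_of_gt hp1)]
      push_cast
      ring
    exact_mod_cast h1

/-! ## Infinitely many disjoint sets of places above 2 -/

/-- iterates of `X^2 - 3X` -/
noncomputable def G : ℕ → ℤ[X]
  | 0 => X
  | n + 1 => (G n).comp (X ^ 2 - 3 * X)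

theorem G_coeff_zero (n : ℕ) : (G n).coeff 0 = 0 := by
  induction n with
  | zero => simp [G]
  | succ n ih =>
    rw [coeff_zero_eq_eval_zero] at ih ⊢
    simp only [G, eval_comp]
    simp [ih]

theorem monic_g : (X ^ 2 - 3 * X : ℤ[X]).Monic := by
  apply (monic_X_pow 2).sub_of_left
  rw [degree_X_pow]
  calc (3 * X : ℤ[X]).degree ≤ (3 : ℤ[X]).degree + (X : ℤ[X]).degree := degree_mul_le _ _
    _ ≤ 0 + 1 := by
        gcongr
        · exact (degree_C_le (a := (3 : ℤ)))
        · exact degree_X_le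
    _ < 2 := by norm_num

theorem natDegree_g : (X ^ 2 - 3 * X : ℤ[X]).natDegree = 2 := by
  have : (3 * X : ℤ[X]).natDegree < (X ^ 2 : ℤ[X]).natDegree := by
    rw [natDegree_X_pow]
    calc (3 * X : ℤ[X]).natDegree ≤ (3 : ℤ[X]).natDegree + (X : ℤ[X]).natDegree := natDegree_mul_le
      _ < 2 := by
        have : (3 : ℤ[X]).natDegree = 0 := natDegree_C 3
        rw [this, natDegree_X]; norm_num
  rw [natDegree_sub_eq_left_of_natDegree_lt this, natDegree_X_pow]

theorem G_monic (n : ℕ) : (G n).Monic := by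
  induction n with
  | zero => exact monic_X
  | succ n ih =>
    apply ih.comp monic_g
    rw [natDegree_g]; norm_num

theorem G_natDegree (n : ℕ) : (G n).natDegree = 2 ^ n := by
  induction n with
  | zero => simp [G]
  | succ n ih =>
    show ((G n).comp (X ^ 2 - 3 * X)).natDegree = _
    rw [natDegree_comp, ih, natDegree_g, pow_succ]

theorem G_map (n : ℕ) : (G n).map (Int.castRingHom (ZMod 3)) = X ^ (2 ^ n) := by
  induction n with
  | zero => simp [G]
  | succ n ih =>
    show ((G n).comp (X ^ 2 - 3 * X)).map _ = _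
    rw [Polynomial.map_comp, ih]
    have h3 : (X ^ 2 - 3 * X : ℤ[X]).map (Int.castRingHom (ZMod 3)) = X ^ 2 := by
      have : (3 : (ZMod 3)[X]) = 0 := by
        have : ((3 : ℕ) : (ZMod 3)[X]) = 0 := CharP.cast_eq_zero _ 3
        simpa using this
      simp [this]
    rw [h3, X_pow_comp, ← pow_mul, pow_succ, mul_comm]

/-- `G n - 6` is irreducible over `ℚ`. -/
noncomputable def PP (n : ℕ) : ℤ[X] := G n - C 6

theorem PP_monic (n : ℕ) : (PP n).Monic := by
  apply (G_monic n).sub_of_left
  refine lt_of_le_of_lt degree_C_le ?_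
  rw [degree_eq_natDegree (G_monic n).ne_zero, G_natDegree]
  exact_mod_cast (by positivity : 0 < 2 ^ n)

theorem PP_irreducible (n : ℕ) : Irreducible ((PP n).map (Int.castRingHom ℚ)) := by
  have hmon := PP_monic n
  have hirr : Irreducible (PP n) := by
    have hdeg : (PP n).degree = ((2 ^ n : ℕ) : WithBot ℕ) := by
      unfold PP
      rw [degree_sub_eq_left_of_degree_lt, degree_eq_natDegree (G_monic n).ne_zero, G_natDegree]
      refine lt_of_le_of_lt degree_C_le ?_
      rw [degree_eq_natDegree (G_monic n).ne_zero, G_natDegree]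
      exact_mod_cast (by positivity : 0 < 2 ^ n)
    apply irreducible_of_eisenstein_criterion (P := Ideal.span {(3 : ℤ)})
    · rw [Ideal.span_singleton_prime (by norm_num)]
      exact Int.prime_three
    · rw [hmon.leadingCoeff, Ideal.mem_span_singleton]
      norm_num
    · intro i hi
      rw [hdeg] at hi
      have hi' : i < 2 ^ n := by exact_mod_cast hi
      rw [Ideal.mem_span_singleton]
      have h1 : ((PP n).map (Int.castRingHom (ZMod 3))).coeff i = 0 := by
        unfold PP
        rw [Polynomial.map_sub, G_map, map_C, coeff_sub, coeff_X_pow, if_neg (by omega)]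
        have : (Int.castRingHom (ZMod 3)) 6 = 0 := by decide
        rw [this]; simp
      rw [coeff_map] at h1
      exact (ZMod.intCast_zmod_eq_zero_iff_dvd _ 3).mp h1
    · rw [hdeg]
      exact_mod_cast (by positivity : 0 < 2 ^ n)
    · unfold PP
      rw [coeff_sub, G_coeff_zero, coeff_C_zero, Ideal.span_singleton_pow,
        Ideal.mem_span_singleton]
      norm_num
    · exact hmon.isPrimitive
  exact (hmon.irreducible_iff_irreducible_map_fraction_map (K := ℚ)).mp hirr

theorem minpoly_eq (n : ℕ) (w : QBar) (hw : aeval w (G n) = 6) :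
    minpoly ℚ w = (PP n).map (Int.castRingHom ℚ) := by
  symm
  apply minpoly.eq_of_irreducible_of_monic (PP_irreducible n)
  · have h1 : (algebraMap ℤ ℚ) = Int.castRingHom ℚ := rfl
    rw [← h1, aeval_map_algebraMap]
    unfold PP
    rw [map_sub, hw, aeval_C]
    simp
  · exact (PP_monic n).map _

/-- A tower of integers. -/
theorem exists_seq (v : QBar → WithTop ℚ) (hv : IsValAbove 2 v) :
    ∃ w : ℕ → QBar, w 0 = 6 ∧ (∀ k, w (k + 1) ^ 2 - 3 * w (k + 1) = w k) ∧ (∀ k, 1 ≤ v (w k)) := by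
  have h3 : v 3 = 0 := by
    have h := val_odd_of_two hv (k := 3) (by decide)
    have h' := hv.coe_val (x := 3) (by norm_num)
    rw [← h']
    simpa using h
  have h6 : 1 ≤ v 6 := by
    have e : (6 : QBar) = 2 * 3 := by norm_num
    rw [e, hv.map_mul, h3, add_zero, one_le_iff hv (by norm_num), val_two_two hv]
  have hstep : ∀ x : QBar, 1 ≤ v x → ∃ y : QBar, y ^ 2 - 3 * y = x ∧ 1 ≤ v y := by
    intro x hx
    obtain ⟨r, hr⟩ : ∃ r : QBar, r ^ 2 - 3 * r = x := by
      have hdeg : (X ^ 2 - 3 * X - C x : QBar[X]).degree ≠ 0 := by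
        have : (X ^ 2 - 3 * X - C x : QBar[X]) = C 1 * X ^ 2 + C (-3) * X + C (-x) := by
          have h3' : (C (3 : QBar) : QBar[X]) = 3 := map_ofNat C 3
          rw [C_neg, C_neg, C_1, h3']; ring
        rw [this, degree_quadratic one_ne_zero]
        norm_num
      obtain ⟨r, hr⟩ := IsAlgClosed.exists_root _ hdeg
      refine ⟨r, ?_⟩
      simp [IsRoot] at hr
      linear_combination hr
    by_cases hr1 : 1 ≤ v r
    · exact ⟨r, hr, hr1⟩
    · refine ⟨3 - r, by rw [← hr]; ring, ?_⟩
      push Not at hr1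
      have hr0 : r ≠ 0 := by
        rintro rfl; rw [hv.map_zero] at hr1; exact absurd hr1 (by simp)
      have e : v r + v (3 - r) = v x := by
        rw [← hr, ← hv.map_mul, ← hv.map_neg]; congr 1; ring
      by_cases hr3 : 3 - r = 0
      · rw [hr3, hv.map_zero]; exact le_top
      have hx' : 1 ≤ IsValAbove.val v r + IsValAbove.val v (3 - r) := by
        rw [← e, ← hv.coe_val hr0, ← hv.coe_val hr3] at hx
        exact_mod_cast hx
      rw [lt_one_iff hv hr0] at hr1
      rw [one_le_iff hv hr3]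
      have hv3 : IsValAbove.val v 3 = 0 := by unfold IsValAbove.val; rw [h3]; rfl
      have e1 := hv.val_sub (x := 3) (y := r) (by norm_num) hr0 hr3
      have e2 : min (IsValAbove.val v r) (IsValAbove.val v (3 - r)) ≤ 0 := by
        have := hv.val_add (x := r) (y := 3 - r) hr0 hr3 (by simp)
        rw [show r + (3 - r) = 3 by ring, hv3] at this
        exact this
      have e3 := hv.val_sub (x := 3) (y := 3 - r) (by norm_num) hr3 (by simpa using hr0)
      rw [show (3 : QBar) - (3 - r) = r by ring, hv3] at e3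
      rw [hv3] at e1
      -- case analysis
      rcases lt_trichotomy (IsValAbove.val v r) 0 with h | h | h
      · exfalso
        have : IsValAbove.val v (3 - r) < 0 := by
          by_contra hcon
          push Not at hcon
          have := le_trans (le_min le_rfl hcon) e3
          linarith
        linarith
      · linarith
      · exfalso
        have : IsValAbove.val v (3 - r) ≤ 0 := by
          rcases min_le_iff.mp e2 with h' | h'
          · linarith
          · exact h'
        linarith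
  choose! f hf1 hf2 using hstep
  let s : ℕ → {x : QBar // 1 ≤ v x} := fun n =>
    Nat.rec ⟨6, h6⟩ (fun _ x => ⟨f x.1, hf2 x.1 x.2⟩) n
  refine ⟨fun n => (s n).1, rfl, ?_, fun n => (s n).2⟩
  intro k
  exact hf1 (s k).1 (s k).2

theorem aeval_G {w : ℕ → QBar} (h0 : w 0 = 6) (hw : ∀ k, w (k + 1) ^ 2 - 3 * w (k + 1) = w k) :
    ∀ n, aeval (w n) (G n) = 6 := by
  have key : ∀ n (x : QBar), aeval x (G (n + 1)) = aeval (x ^ 2 - 3 * x) (G n) := by
    intro n x
    show aeval x ((G n).comp (X ^ 2 - 3 * X)) = _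
    rw [aeval_comp, map_sub, map_mul, map_pow, aeval_X, map_ofNat]
  intro n
  induction n with
  | zero => simp [G, h0]
  | succ n ih => rw [key, hw, ih]

/-- For every `k` there is a place fixing the earlier members of the tower and flipping `w k`. -/
theorem exists_flip (v : QBar → WithTop ℚ) (hv : IsValAbove 2 v) {w : ℕ → QBar} (h0 : w 0 = 6)
    (hw : ∀ k, w (k + 1) ^ 2 - 3 * w (k + 1) = w k) (k : ℕ) :
    ∃ v', IsValAbove 2 v' ∧ (∀ j ≤ k, ∀ c : ℚ, v' (w j - c) = v (w j - c)) ∧
      ∀ c : ℚ, v' (w (k + 1) - c) = v (3 - w (k + 1) - c) := by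
  have h1 : aeval (w (k + 1)) (G (k + 1)) = 6 := aeval_G h0 hw (k + 1)
  have h2 : aeval (3 - w (k + 1)) (G (k + 1)) = 6 := by
    have key : ∀ n (x : QBar), aeval x (G (n + 1)) = aeval (x ^ 2 - 3 * x) (G n) := by
      intro n x
      show aeval x ((G n).comp (X ^ 2 - 3 * X)) = _
      rw [aeval_comp, map_sub, map_mul, map_pow, aeval_X, map_ofNat]
    rw [key] at h1 ⊢
    rw [← h1]; congr 1; ring
  have hconj : IsConjRoot ℚ (3 - w (k + 1)) (w (k + 1)) := by
    unfold IsConjRoot
    rw [minpoly_eq _ _ h1, minpoly_eq _ _ h2]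
  have hnormal : Normal ℚ QBar := inferInstance
  obtain ⟨σ, hσ⟩ := hconj.exists_algEquiv
  have hσk : σ (w k) = w k := by
    rw [← hw k, map_sub, map_pow, map_mul, hσ]
    have : σ 3 = 3 := by simpa using σ.commutes (3 : ℚ)
    rw [this]; ring
  have hσj : ∀ d j, j + d = k → σ (w j) = w j := by
    intro d
    induction d with
    | zero => intro j hj; rw [add_zero] at hj; rw [hj]; exact hσk
    | succ d ih =>
      intro j hj
      have hj1 := ih (j + 1) (by omega)
      rw [← hw j, map_sub, map_pow, map_mul, hj1]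
      have : σ 3 = 3 := by simpa using σ.commutes (3 : ℚ)
      rw [this]
  refine ⟨fun x => v (σ x), ?_, ?_, ?_⟩
  · refine ⟨?_, ?_, ?_, ?_⟩
    · simp [hv.map_zero]
    · intro x y; simp [hv.map_mul]
    · intro x y; simp only [map_add]; exact hv.le_map_add _ _
    · intro q hq
      rw [map_ratCast]
      exact hv.extends_padic q hq
  · intro j hj c
    obtain ⟨d, hd⟩ := Nat.exists_eq_add_of_le hj
    show v (σ (w j - c)) = _
    rw [map_sub, hσj d j (by omega), map_ratCast]
  · intro c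
    show v (σ (w (k + 1) - c)) = _
    rw [map_sub, hσ, map_ratCast]

theorem v_three {v : QBar → WithTop ℚ} (hv : IsValAbove 2 v) : v 3 = 0 := by
  have h := val_odd_of_two hv (k := 3) (by decide)
  have h' := hv.coe_val (x := 3) (by norm_num)
  rw [← h']
  simpa using h

theorem v_two {v : QBar → WithTop ℚ} (hv : IsValAbove 2 v) : v 2 = 1 := by
  have h' := hv.coe_val (x := 2) (by norm_num)
  rw [← h', val_two_two hv]; rfl

theorem one_le_mul_left {p : ℕ} {v : QBar → WithTop ℚ} (hv : IsValAbove p v) {x y : QBar}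
    (hx : 1 ≤ v x) (hy : 0 ≤ v y) : 1 ≤ v (x * y) := by
  rw [hv.map_mul]
  calc (1 : WithTop ℚ) = 1 + 0 := by rw [add_zero]
    _ ≤ _ := add_le_add hx hy

theorem nonneg_mul {p : ℕ} {v : QBar → WithTop ℚ} (hv : IsValAbove p v) {x y : QBar}
    (hx : 0 ≤ v x) (hy : 0 ≤ v y) : 0 ≤ v (x * y) := by
  rw [hv.map_mul]; exact add_nonneg hx hy

theorem nonneg_sub {p : ℕ} {v : QBar → WithTop ℚ} (hv : IsValAbove p v) {x y : QBar}
    (hx : 0 ≤ v x) (hy : 0 ≤ v y) : 0 ≤ v (x - y) := by
  rw [sub_eq_add_neg]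
  refine le_trans (le_min hx ?_) (hv.le_map_add x (-y))
  rwa [hv.map_neg]

theorem one_le_sub {p : ℕ} {v : QBar → WithTop ℚ} (hv : IsValAbove p v) {x y : QBar}
    (hx : 1 ≤ v x) (hy : 1 ≤ v y) : 1 ≤ v (x - y) := by
  rw [sub_eq_add_neg]
  refine le_trans (le_min hx ?_) (hv.le_map_add x (-y))
  rwa [hv.map_neg]

theorem one_le_add {p : ℕ} {v : QBar → WithTop ℚ} (hv : IsValAbove p v) {x y : QBar}
    (hx : 1 ≤ v x) (hy : 1 ≤ v y) : 1 ≤ v (x + y) :=
  le_trans (le_min hx hy) (hv.le_map_add x y)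

/-- exclusivity -/
theorem v_sub_three {v : QBar → WithTop ℚ} (hv : IsValAbove 2 v) {r : QBar} (hr : 1 ≤ v r) :
    v (r - 3) = 0 := by
  have h1 : v (-3 : QBar) < v r := by
    rw [hv.map_neg, v_three hv]
    exact lt_of_lt_of_le (by norm_num) hr
  have := hv.toAdd.map_add_eq_of_lt_left (x := (-3 : QBar)) (y := r) h1
  rw [hv.toAdd_apply, hv.toAdd_apply, hv.map_neg, v_three hv] at this
  rw [← this]; congr 1; ring

theorem dichotomy {v : QBar → WithTop ℚ} (hv : IsValAbove 2 v) {r x : QBar}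
    (hr : r ^ 2 - 3 * r = x) (hx : 1 ≤ v x) (hr0 : 0 ≤ v r) : 1 ≤ v r ∨ 1 ≤ v (r - 3) := by
  by_contra hcon
  push Not at hcon
  obtain ⟨h1, h2⟩ := hcon
  have hne1 : r ≠ 0 := by rintro rfl; rw [hv.map_zero] at h1; exact absurd h1 (by simp)
  have hne2 : r - 3 ≠ 0 := by intro h; rw [h, hv.map_zero] at h2; exact absurd h2 (by simp)
  have e : v r + v (r - 3) = v x := by rw [← hr, ← hv.map_mul]; congr 1; ring
  have hx' : 1 ≤ IsValAbove.val v r + IsValAbove.val v (r - 3) := by
    rw [← e, ← hv.coe_val hne1, ← hv.coe_val hne2] at hx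
    exact_mod_cast hx
  rw [lt_one_iff hv hne1] at h1
  rw [lt_one_iff hv hne2] at h2
  have hv3 : IsValAbove.val v 3 = 0 := by unfold IsValAbove.val; rw [v_three hv]; rfl
  have e3 := hv.val_sub (x := r) (y := r - 3) hne1 hne2 (by norm_num)
  rw [show r - (r - 3) = 3 by ring, hv3] at e3
  rcases min_le_iff.mp e3 with h | h <;> linarith

theorem exists_rows : ∃ y : ℕ → QBar,
    (∀ i, ∃ v, IsValAbove 2 v ∧ v (y i) < 1) ∧
    (∀ v, IsValAbove 2 v → ∀ i j, i ≠ j → v (y i) < 1 → 1 ≤ v (y j)) ∧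
    (∀ v, IsValAbove 2 v → ∀ i, v (y i) < 1 → 1 ≤ v (y i - 1)) := by
  obtain ⟨v₀, hv₀⟩ := exists_valAbove 2 Nat.prime_two
  obtain ⟨w, hw0, hw, hw1⟩ := exists_seq v₀ hv₀
  have hint : ∀ k, IsIntegral ℤ (w k) := by
    intro k
    refine ⟨PP k, PP_monic k, ?_⟩
    have h := aeval_G hw0 hw k
    rw [← aeval_def]
    unfold PP
    rw [map_sub, h, aeval_C]; simp
  have hint3 : ∀ k, IsIntegral ℤ (w k - 3) := by
    intro k
    apply (hint k).sub
    simpa using isIntegral_algebraMap (R := ℤ) (A := QBar) (x := (3 : ℤ))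
  have hw6 : ∀ v, IsValAbove 2 v → 1 ≤ v (w 0) := by
    intro v hv
    rw [hw0, show (6 : QBar) = 2 * 3 by norm_num, hv.map_mul, v_two hv, v_three hv, add_zero]
  set y : ℕ → QBar := fun i => w (i + 1) * ∏ k ∈ Finset.range i, (w (k + 1) - 3) with hy
  have hprodint : ∀ s : Finset ℕ, IsIntegral ℤ (∏ k ∈ s, (w (k + 1) - 3)) := by
    intro s
    exact IsIntegral.prod _ (fun k _ => hint3 (k + 1))
  -- factorisations
  have hfac : ∀ i k, k < i → ∃ u : QBar, IsIntegral ℤ u ∧ y i = (w (k + 1) - 3) * u := by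
    intro i k hk
    refine ⟨w (i + 1) * ∏ j ∈ (Finset.range i).erase k, (w (j + 1) - 3),
      (hint _).mul (hprodint _), ?_⟩
    rw [hy]
    simp only
    rw [← Finset.mul_prod_erase (Finset.range i) (fun k => w (k + 1) - 3)
      (Finset.mem_range.mpr hk)]
    ring
  -- structure of small y i
  have hstr : ∀ v, IsValAbove 2 v → ∀ i, v (y i) < 1 →
      (∀ k ≤ i, 1 ≤ v (w k)) ∧ 1 ≤ v (w (i + 1) - 3) := by
    intro v hv i hi
    have hA : ∀ k ≤ i, 1 ≤ v (w k) := by
      intro k
      induction k with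
      | zero => intro _; exact hw6 v hv
      | succ k ih =>
        intro hk
        have h1 := ih (by omega)
        rcases dichotomy hv (hw k) h1 (hv.nonneg_of_isIntegral (hint _)) with h | h
        · exact h
        · exfalso
          obtain ⟨u, hu, hyu⟩ := hfac i k (by omega)
          rw [hyu] at hi
          exact absurd (one_le_mul_left hv h (hv.nonneg_of_isIntegral hu)) (not_le.mpr hi)
    refine ⟨hA, ?_⟩
    rcases dichotomy hv (hw i) (hA i le_rfl) (hv.nonneg_of_isIntegral (hint _)) with h | h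
    · exfalso
      exact absurd (one_le_mul_left hv h (hv.nonneg_of_isIntegral (hprodint _))) (not_le.mpr hi)
    · exact h
  refine ⟨y, ?_, ?_, ?_⟩
  · intro i
    obtain ⟨v, hv, hfix, hflip⟩ := exists_flip v₀ hv₀ hw0 hw i
    refine ⟨v, hv, ?_⟩
    have h1 : v (w (i + 1)) = 0 := by
      have := hflip 0
      simp only [Rat.cast_zero, sub_zero] at this
      rw [this, ← hv₀.map_neg, show -(3 - w (i + 1)) = w (i + 1) - 3 by ring]
      exact v_sub_three hv₀ (hw1 _)
    have h2 : ∀ n ≤ i, v (∏ k ∈ Finset.range n, (w (k + 1) - 3)) = 0 := by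
      intro n
      induction n with
      | zero => intro _; simp [hv.map_one]
      | succ n ih =>
        intro hn
        rw [Finset.prod_range_succ, hv.map_mul, ih (by omega), zero_add]
        have := hfix (n + 1) hn 3
        have e3 : ((3 : ℚ) : QBar) = 3 := by norm_num
        rw [e3] at this
        rw [this]
        exact v_sub_three hv₀ (hw1 _)
    show v (w (i + 1) * ∏ k ∈ Finset.range i, (w (k + 1) - 3)) < 1
    rw [hv.map_mul, h1, h2 i le_rfl, add_zero]
    norm_num
  · intro v hv i j hij hi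
    obtain ⟨hA, hB⟩ := hstr v hv i hi
    rcases lt_or_gt_of_ne hij with h | h
    · obtain ⟨u, hu, hyu⟩ := hfac j i h
      rw [hyu]
      exact one_le_mul_left hv hB (hv.nonneg_of_isIntegral hu)
    · exact one_le_mul_left hv (hA (j + 1) (by omega)) (hv.nonneg_of_isIntegral (hprodint _))
  · intro v hv i hi
    obtain ⟨hA, hB⟩ := hstr v hv i hi
    -- everything is congruent to 1
    have h2 : 1 ≤ v 2 := (v_two hv).ge
    have h4 : 1 ≤ v (-4 : QBar) := by
      rw [hv.map_neg, show (4 : QBar) = 2 * 2 by norm_num]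
      exact one_le_mul_left hv h2 (le_trans zero_le_one h2)
    have hP : ∀ n ≤ i, 1 ≤ v (∏ k ∈ Finset.range n, (w (k + 1) - 3) - 1) := by
      intro n
      induction n with
      | zero => intro _; simp [hv.map_zero]
      | succ n ih =>
        intro hn
        rw [Finset.prod_range_succ]
        have e : (∏ k ∈ Finset.range n, (w (k + 1) - 3)) * (w (n + 1) - 3) - 1 =
            (∏ k ∈ Finset.range n, (w (k + 1) - 3) - 1) * (w (n + 1) - 3) +
              (w (n + 1) + (-4)) := by ring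
        rw [e]
        exact one_le_add hv (one_le_mul_left hv (ih (by omega)) (hv.nonneg_of_isIntegral (hint3 _)))
          (one_le_add hv (hA (n + 1) hn) h4)
    show 1 ≤ v (w (i + 1) * ∏ k ∈ Finset.range i, (w (k + 1) - 3) - 1)
    have e : w (i + 1) * ∏ k ∈ Finset.range i, (w (k + 1) - 3) - 1 =
        (∏ k ∈ Finset.range i, (w (k + 1) - 3) - 1) * w (i + 1) + ((w (i + 1) - 3) + 2) := by ring
    rw [e]
    exact one_le_add hv (one_le_mul_left hv (hP i le_rfl) (hv.nonneg_of_isIntegral (hint _)))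
      (one_le_add hv hB h2)

/-- Powers of elements congruent to one. -/
theorem pow_two_pow_sub_one {v : QBar → WithTop ℚ} (hv : IsValAbove 2 v) {u : QBar}
    (hu : 1 ≤ v (u - 1)) (n : ℕ) : (((n : ℚ) + 1 : ℚ) : WithTop ℚ) ≤ v (u ^ (2 ^ n) - 1) := by
  induction n with
  | zero => simpa using hu
  | succ n ih =>
    have e : u ^ (2 ^ (n + 1)) - 1 = (u ^ (2 ^ n) - 1) * ((u ^ (2 ^ n) - 1) + 2) := by
      rw [pow_succ, pow_mul]; ring
    rw [e, hv.map_mul]
    have h1 : (1 : WithTop ℚ) ≤ v (u ^ (2 ^ n) - 1) := by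
      refine le_trans ?_ ih
      exact_mod_cast (by linarith [(Nat.cast_nonneg n : (0 : ℚ) ≤ n)] : (1 : ℚ) ≤ (n : ℚ) + 1)
    have h2 := one_le_add hv h1 (v_two hv).ge
    calc ((((n + 1 : ℕ) : ℚ) + 1 : ℚ) : WithTop ℚ) = (((n : ℚ) + 1 : ℚ) : WithTop ℚ) + 1 := by
          push_cast; rfl
      _ ≤ _ := add_le_add ih h2

theorem inv_two_pow_val {v : QBar → WithTop ℚ} (hv : IsValAbove 2 v) (j : ℕ) :
    v ((2 : QBar)⁻¹ ^ j) = ((-(j : ℚ) : ℚ) : WithTop ℚ) := by
  have h20 : (2 : QBar) ≠ 0 := by norm_num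
  rw [← hv.coe_val (pow_ne_zero _ (inv_ne_zero h20)), hv.val_pow (inv_ne_zero h20), hv.val_inv h20,
    val_two_two hv]
  congr 1; ring

/-- Distinct `2^{-j}` are far apart. -/
theorem inv_two_pow_sub_lt {v : QBar → WithTop ℚ} (hv : IsValAbove 2 v) {j k : ℕ} (hjk : j ≠ k) :
    v ((2 : QBar)⁻¹ ^ j - (2 : QBar)⁻¹ ^ k) < 1 := by
  have key : ∀ j k : ℕ, j < k → v ((2 : QBar)⁻¹ ^ k + -(2 : QBar)⁻¹ ^ j) < 1 := by
    intro j k h
    have h1 : v ((2 : QBar)⁻¹ ^ k) < v (-(2 : QBar)⁻¹ ^ j) := by
      rw [hv.map_neg, inv_two_pow_val hv, inv_two_pow_val hv]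
      have : (j : ℚ) < k := by exact_mod_cast h
      exact_mod_cast (by linarith : -(k : ℚ) < -(j : ℚ))
    have h2 := hv.toAdd.map_add_eq_of_lt_left h1
    rw [hv.toAdd_apply, hv.toAdd_apply] at h2
    rw [h2, inv_two_pow_val hv]
    have : (0 : ℚ) ≤ k := by positivity
    exact_mod_cast (by linarith : -(k : ℚ) < 1)
  rcases lt_or_gt_of_ne hjk with h | h
  · have := key j k h
    rw [← hv.map_neg]
    convert this using 2
    ring
  · have := key k j h
    rwa [← sub_eq_add_neg] at this

/-- The realization of a path. -/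
theorem exists_path {y : ℕ → QBar}
    (h1 : ∀ v, IsValAbove 2 v → ∀ i j, i ≠ j → v (y i) < 1 → 1 ≤ v (y j))
    (h2 : ∀ v, IsValAbove 2 v → ∀ i, v (y i) < 1 → 1 ≤ v (y i - 1))
    (f : ℕ → ℕ) (s : Finset ℕ) :
    ∃ x : QBar, ∀ i ∈ s, ∀ v, IsValAbove 2 v → v (y i) < 1 →
      1 ≤ v (x - (2 : QBar)⁻¹ ^ (f i)) := by
  classical
  obtain ⟨n, hn⟩ : ∃ n : ℕ, ∀ i ∈ s, f i ≤ n := by
    refine ⟨s.sup f, fun i hi => Finset.le_sup hi⟩
  refine ⟨∑ i ∈ s, y i ^ (2 ^ n) * (2 : QBar)⁻¹ ^ (f i), ?_⟩
  intro i hi v hv hyi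
  rw [← Finset.add_sum_erase _ _ hi]
  have e : y i ^ 2 ^ n * 2⁻¹ ^ f i + ∑ x ∈ s.erase i, y x ^ 2 ^ n * 2⁻¹ ^ f x - 2⁻¹ ^ f i =
      (y i ^ 2 ^ n - 1) * 2⁻¹ ^ f i + ∑ x ∈ s.erase i, y x ^ 2 ^ n * 2⁻¹ ^ f x := by ring
  rw [e]
  have hbound : ∀ j ∈ s, ∀ a : QBar, (((n : ℚ) + 1 : ℚ) : WithTop ℚ) ≤ v a →
      1 ≤ v (a * 2⁻¹ ^ f j) := by
    intro j hj a ha
    rw [hv.map_mul, inv_two_pow_val hv]
    have h3 : (f j : ℚ) ≤ n := by exact_mod_cast hn j hj
    calc (1 : WithTop ℚ) = ((1 : ℚ) : WithTop ℚ) := rfl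
      _ ≤ (((n : ℚ) + 1 + -(f j : ℚ) : ℚ) : WithTop ℚ) := by
          rw [WithTop.coe_le_coe]; linarith
      _ = (((n : ℚ) + 1 : ℚ) : WithTop ℚ) + ((-(f j : ℚ) : ℚ) : WithTop ℚ) := by
          rw [WithTop.coe_add]
      _ ≤ _ := by gcongr
  apply one_le_add hv
  · exact hbound i hi _ (pow_two_pow_sub_one hv (h2 v hv i hyi) n)
  · have hsum := hv.toAdd.map_le_sum (s := s.erase i)
      (f := fun x => y x ^ 2 ^ n * 2⁻¹ ^ f x) (g := 1) (by
        intro j hj
        rw [hv.toAdd_apply]
        have hji : j ≠ i := Finset.ne_of_mem_erase hj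
        apply hbound j (Finset.mem_of_mem_erase hj)
        have h4 := h1 v hv i j hji.symm hyi
        by_cases hy0 : y j = 0
        · rw [hy0, zero_pow (by positivity), hv.map_zero]; exact le_top
        · rw [hv.le_iff (pow_ne_zero _ hy0), hv.val_pow hy0]
          rw [one_le_iff hv hy0] at h4
          have h5 : (n : ℚ) + 1 ≤ ((2 ^ n : ℕ) : ℚ) := by
            have : n + 1 ≤ 2 ^ n := Nat.lt_two_pow_self
            exact_mod_cast this
          have h6 : (0 : ℚ) ≤ ((2 ^ n : ℕ) : ℚ) := by positivity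
          nlinarith)
    exact hsum

/-! ## The formula with TP2 -/

/-- Terms of the formula -/
def tadd {α : Type} (s t : sqfLang.Term α) : sqfLang.Term α :=
  Term.func (L := sqfLang) (l := 2) (AddFunc.add : sqfLang.Functions 2) ![s, t]
def tneg {α : Type} (s : sqfLang.Term α) : sqfLang.Term α :=
  Term.func (L := sqfLang) (l := 1) (AddFunc.neg : sqfLang.Functions 1) ![s]
def fsqf {α : Type} {n : ℕ} (t : sqfLang.Term (α ⊕ Fin n)) : sqfLang.BoundedFormula α n :=
  BoundedFormula.rel (L := sqfLang) (l := 1) (SqfRel.sqf : sqfLang.Relations 1) ![t]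

theorem realize_tadd {α : Type} (s t : sqfLang.Term α) (v : α → QBar) :
    (tadd s t).realize v = s.realize v + t.realize v := rfl

theorem realize_tneg {α : Type} (s : sqfLang.Term α) (v : α → QBar) :
    (tneg s).realize v = - s.realize v := rfl

theorem realize_fsqf {α : Type} {n : ℕ} (t : sqfLang.Term (α ⊕ Fin n)) (v : α → QBar)
    (xs : Fin n → QBar) :
    (fsqf t).Realize v xs ↔ t.realize (Sum.elim v xs) ∈ SqfQBar := Iff.rfl

def vt : sqfLang.Term ((Fin 1 ⊕ Fin 2) ⊕ Fin 1) := Term.var (Sum.inr 0)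
def vx : sqfLang.Term ((Fin 1 ⊕ Fin 2) ⊕ Fin 1) := Term.var (Sum.inl (Sum.inl 0))
def vz : sqfLang.Term ((Fin 1 ⊕ Fin 2) ⊕ Fin 1) := Term.var (Sum.inl (Sum.inr 0))
def vy : sqfLang.Term ((Fin 1 ⊕ Fin 2) ⊕ Fin 1) := Term.var (Sum.inl (Sum.inr 1))

/-- The formula with TP2. -/
def phi : sqfLang.Formula (Fin 1 ⊕ Fin 2) :=
  ∼ (∃' (fsqf vt ⊓ ∼ (fsqf (tadd vt vt)) ⊓
    fsqf (tadd (tadd vt (tadd vx (tneg vz))) (tadd vt (tadd vx (tneg vz)))) ⊓
    fsqf (tadd (tadd vt vy) (tadd vt vy))))

theorem realize_phi (a : Fin 1 → QBar) (b : Fin 2 → QBar) :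
    phi.Realize (Sum.elim a b) ↔ ¬ ∃ t : QBar, t ∈ SqfQBar ∧ t + t ∉ SqfQBar ∧
      (t + (a 0 - b 0)) + (t + (a 0 - b 0)) ∈ SqfQBar ∧ (t + b 1) + (t + b 1) ∈ SqfQBar := by
  unfold phi Formula.Realize
  rw [BoundedFormula.realize_not, BoundedFormula.realize_ex]
  apply not_congr
  apply exists_congr
  intro t
  simp only [BoundedFormula.realize_inf, BoundedFormula.realize_not, realize_fsqf, realize_tadd,
    realize_tneg, vt, vx, vz, vy, Term.realize_var, Sum.elim_inl, Sum.elim_inr]
  simp only [Fin.snoc, Fin.val_zero, lt_self_iff_false, dite_false, cast_eq, sub_eq_add_neg]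
  tauto

/-- **Main theorem**: the complete theory of `(QBar; +, -, 1, Sqf)` does not have NTP2. -/
theorem result : ¬ NTP2 (sqfLang.completeTheory QBar) := by
  intro hN
  obtain ⟨y, hy1, hy2, hy3⟩ := exists_rows
  apply hN 1 2 phi
  refine ⟨QBar, inferInstance, inferInstance, inferInstance,
    fun i j => ![(2 : QBar)⁻¹ ^ j, y i], 2, ?_, ?_⟩
  · rintro i s hs ⟨a, ha⟩
    obtain ⟨j, k, hjk, rfl⟩ := Finset.card_eq_two.mp hs
    obtain ⟨v, hv, hvi⟩ := hy1 i
    have hmain : ∀ l ∈ ({j, k} : Finset ℕ), 1 ≤ v (a 0 - (2 : QBar)⁻¹ ^ l) := by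
      intro l hl
      by_contra hcon
      push Not at hcon
      have h1 := (realize_phi a ![(2 : QBar)⁻¹ ^ l, y i]).mp (ha l hl)
      apply h1
      exact exists_witness (a 0 - (2 : QBar)⁻¹ ^ l) (y i) v hv hcon hvi
    have hj := hmain j (by simp)
    have hk := hmain k (by simp)
    have h2 := one_le_sub hv hk hj
    have e : a 0 - (2 : QBar)⁻¹ ^ k - (a 0 - (2 : QBar)⁻¹ ^ j) =
      (2 : QBar)⁻¹ ^ j - (2 : QBar)⁻¹ ^ k := by ring
    rw [e] at h2
    exact absurd h2 (not_le.mpr (inv_two_pow_sub_lt hv hjk))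
  · intro f s
    obtain ⟨x, hx⟩ := exists_path hy2 hy3 f s
    refine ⟨fun _ => x, ?_⟩
    intro i hi
    refine (realize_phi (fun _ => x) ![(2 : QBar)⁻¹ ^ (f i), y i]).mpr ?_
    rintro ⟨t, h1, h2, h3, h4⟩
    obtain ⟨v, hv, hva, hvb⟩ := exists_place_of_witness _ _ t h1 h2 h3 h4
    have := hx i hi v hv hvb
    exact absurd this (not_le.mpr hva)

end Pool.Agent.Results.MP_74b845_lc.SqfNotNTP2
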